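import Mathlib

/-!
The cofree set of functions `G → M` and the simultaneous HNN trick: for every subgroup `T` of a group `G`
there are an action of `G` on a set `U` and a point `p` with stabilizer `T`, such that for any two
homomorphisms `α, β : H → G` with the same kernel and `α⁻¹ T = β⁻¹ T` some permutation `s` of `U` fixes `p`
and satisfies `s * ρ (β h) = ρ (α h) * s`.
-/

namespace Pool.Agent.helper11.Boone

section exchange

variable {A U : Type} [Group A] [MulAction A U]

open Classical in
/-- Exchange the orbits of `x` and `y` (which have the same stabilizer). -/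
noncomputable def exch (A : Type) {U : Type} [Group A] [MulAction A U] (x y : U) (u : U) : U :=
  if h : ∃ b : A, b • x = u then h.choose • y
  else if h : ∃ b : A, b • y = u then h.choose • x
  else u

lemma exch_left {x y : U} (hst : ∀ b : A, b • x = x → b • y = y) (b : A) :
    exch A x y (b • x) = b • y := by
  have h : ∃ c : A, c • x = b • x := ⟨b, rfl⟩
  rw [exch, dif_pos h]
  have h1 : (b⁻¹ * h.choose) • x = x := by
    rw [mul_smul, h.choose_spec, inv_smul_smul]
  have h2 := hst _ h1
  rw [mul_smul, inv_smul_eq_iff] at h2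
  exact h2

lemma exch_right {x y : U} (hst : ∀ b : A, b • y = y → b • x = x) {b : A}
    (hn : ¬ ∃ c : A, c • x = b • y) : exch A x y (b • y) = b • x := by
  have h : ∃ c : A, c • y = b • y := ⟨b, rfl⟩
  rw [exch, dif_neg hn, dif_pos h]
  have h1 : (b⁻¹ * h.choose) • y = y := by
    rw [mul_smul, h.choose_spec, inv_smul_smul]
  have h2 := hst _ h1
  rw [mul_smul, inv_smul_eq_iff] at h2
  exact h2

lemma exch_exch {x y : U} (hst : ∀ b : A, b • x = x ↔ b • y = y) (u : U) :
    exch A y x (exch A x y u) = u := by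
  by_cases h1 : ∃ b : A, b • x = u
  · obtain ⟨b, rfl⟩ := h1
    rw [exch_left (fun b => (hst b).1), exch_left (fun b => (hst b).2)]
  · by_cases h2 : ∃ b : A, b • y = u
    · obtain ⟨b, rfl⟩ := h2
      rw [exch_right (fun b => (hst b).2) h1, exch_right (fun b => (hst b).1)]
      rintro ⟨c, hc⟩
      apply h1
      refine ⟨b * c⁻¹ * b, ?_⟩
      rw [mul_smul, ← hc, mul_smul, inv_smul_smul]
    · have h3 : exch A x y u = u := by
        rw [exch, dif_neg h1, dif_neg h2]
      rw [h3, exch, dif_neg h2, dif_neg h1]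

/-- The exchange permutation. -/
noncomputable def exchPerm {x y : U} (hst : ∀ b : A, b • x = x ↔ b • y = y) : Equiv.Perm U where
  toFun := exch A x y
  invFun := exch A y x
  left_inv := exch_exch hst
  right_inv := exch_exch (fun b => (hst b).symm)

lemma exch_smul {x y : U} (hst : ∀ b : A, b • x = x ↔ b • y = y) (c : A) (u : U) :
    exch A x y (c • u) = c • exch A x y u := by
  by_cases h1 : ∃ b : A, b • x = u
  · obtain ⟨b, rfl⟩ := h1
    rw [← mul_smul, exch_left (fun b => (hst b).1), exch_left (fun b => (hst b).1), mul_smul]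
  · have h1' : ¬ ∃ b : A, b • x = c • u := by
      rintro ⟨b, hb⟩
      exact h1 ⟨c⁻¹ * b, by rw [mul_smul, hb, inv_smul_smul]⟩
    by_cases h2 : ∃ b : A, b • y = u
    · obtain ⟨b, rfl⟩ := h2
      rw [← mul_smul] at h1' ⊢
      rw [exch_right (fun b => (hst b).2) h1', exch_right (fun b => (hst b).2) h1, mul_smul]
    · have h2' : ¬ ∃ b : A, b • y = c • u := by
        rintro ⟨b, hb⟩
        exact h2 ⟨c⁻¹ * b, by rw [mul_smul, hb, inv_smul_smul]⟩
      rw [exch, dif_neg h1', dif_neg h2', exch, dif_neg h1, dif_neg h2]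

end exchange

section cofree

variable (G : Type) [Group G]

/-- The values. -/
abbrev Mv : Type := G × ℕ → Bool

/-- The cofree `G`-set. -/
abbrev Uv : Type := G → Mv G

/-- The action of `G` by right translation of the argument. -/
def rhoU : G →* Equiv.Perm (Uv G) where
  toFun g :=
    { toFun := fun f x => f (x * g)
      invFun := fun f x => f (x * g⁻¹)
      left_inv := fun f => by funext x; simp
      right_inv := fun f => by funext x; simp }
  map_one' := by ext f x; simp
  map_mul' g h := by ext f x; simp [mul_assoc]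

variable {G}

lemma rhoU_apply (g : G) (f : Uv G) (x : G) : rhoU G g f x = f (x * g) := rfl

open Classical in
/-- The base point: the indicator function of `T`. -/
noncomputable def ptU (T : Subgroup G) : Uv G := fun x => if x ∈ T then fun _ => true else fun _ => false

lemma rhoU_ptU (T : Subgroup G) (g : G) : rhoU G g (ptU T) = ptU T ↔ g ∈ T := by
  classical
  constructor
  · intro h
    have h1 := congrFun h 1
    rw [rhoU_apply, one_mul, ptU, ptU, if_pos T.one_mem] at h1
    by_contra hg
    rw [if_neg hg] at h1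
    have := congrFun h1 (1, 0)
    simp at this
  · intro hg
    funext x
    rw [rhoU_apply, ptU, ptU]
    simp only [T.mul_mem_cancel_right hg]

/-- Restricted to a subgroup `A`, the cofree set is the cofree `A`-set on `Mv G`. -/
lemma exists_cofree (A : Subgroup G) : ∃ e : Uv G ≃ (A → Mv G),
    ∀ (a : A) (f : Uv G) (x : A), e (rhoU G a f) x = e f (x * a) := by
  classical
  have hcard : Nonempty (((G ⧸ A) × (G × ℕ)) ≃ (G × ℕ)) := by
    rw [← Cardinal.eq]
    simp only [Cardinal.mk_prod, Cardinal.lift_id]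
    have hinf : Cardinal.aleph0 ≤ Cardinal.mk G * Cardinal.mk ℕ := by
      rw [Cardinal.mk_nat]
      exact Cardinal.le_mul_left (by simp)
    refine Cardinal.mul_eq_right hinf ?_ (by simp)
    refine le_trans (Cardinal.mk_le_of_surjective (QuotientGroup.mk_surjective (s := A))) ?_
    rw [Cardinal.mk_nat]
    exact Cardinal.le_mul_right Cardinal.aleph0_ne_zero
  obtain ⟨c⟩ := hcard
  -- `(G ⧸ A → Mv G) ≃ Mv G`
  let e1 : ((G ⧸ A) → Mv G) ≃ Mv G :=
    (Equiv.curry (G ⧸ A) (G × ℕ) Bool).symm.trans (Equiv.arrowCongr c (Equiv.refl Bool))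
  let e0 : Uv G ≃ (A → (G ⧸ A) → Mv G) :=
    { toFun := fun f a q => f (q.out * a)
      invFun := fun F x => F ⟨(QuotientGroup.mk x : G ⧸ A).out⁻¹ * x, by
        have : (QuotientGroup.mk (QuotientGroup.mk x : G ⧸ A).out : G ⧸ A) = QuotientGroup.mk x :=
          Quotient.out_eq' _
        exact QuotientGroup.eq.1 this⟩ (QuotientGroup.mk x)
      left_inv := fun f => by
        funext x
        simp
      right_inv := fun F => by
        funext a q
        have hq : (QuotientGroup.mk (q.out * (a : G)) : G ⧸ A) = q := by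
          rw [QuotientGroup.mk_mul_of_mem _ a.2]
          exact Quotient.out_eq' q
        simp only [hq]
        congr 1
        simp }
  refine ⟨e0.trans (Equiv.arrowCongr (Equiv.refl A) e1), ?_⟩
  intro a f x
  simp only [Equiv.trans_apply, Equiv.arrowCongr_apply, Equiv.coe_refl, Function.comp_apply,
    Equiv.refl_symm, id_eq]
  congr 1
  funext q
  change rhoU G a f (q.out * x) = f (q.out * (x * a : A))
  rw [rhoU_apply, Subgroup.coe_mul, mul_assoc]

/-- The simultaneous HNN trick. -/
theorem exists_conj {H : Type} [Group H] (T : Subgroup G) (α β : H →* G)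
    (hker : ∀ h, α h = 1 ↔ β h = 1) (hT : ∀ h, α h ∈ T ↔ β h ∈ T) :
    ∃ s : Equiv.Perm (Uv G), s (ptU T) = ptU T ∧ ∀ h, s * rhoU G (β h) = rhoU G (α h) * s := by
  classical
  -- the isomorphism of ranges
  have hk : α.ker = β.ker := by
    ext h
    rw [MonoidHom.mem_ker, MonoidHom.mem_ker, hker]
  let φ : α.range ≃* β.range :=
    ((QuotientGroup.quotientKerEquivRange α).symm.trans (QuotientGroup.quotientMulEquivOfEq hk)).trans
      (QuotientGroup.quotientKerEquivRange β)
  have hφ : ∀ h, φ ⟨α h, ⟨h, rfl⟩⟩ = ⟨β h, ⟨h, rfl⟩⟩ := by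
    intro h
    have h1 : (QuotientGroup.quotientKerEquivRange α).symm ⟨α h, ⟨h, rfl⟩⟩ = (h : H ⧸ α.ker) := by
      rw [MulEquiv.symm_apply_eq]
      rfl
    simp only [φ, MulEquiv.trans_apply, h1]
    rfl
  obtain ⟨eA, heA⟩ := exists_cofree α.range
  obtain ⟨eB, heB⟩ := exists_cofree β.range
  let s0 : Equiv.Perm (Uv G) :=
    (eA.trans (Equiv.arrowCongr φ.toEquiv (Equiv.refl (Mv G)))).trans eB.symm
  have hs0 : ∀ (h : H) (f : Uv G), s0 (rhoU G (α h) f) = rhoU G (β h) (s0 f) := by
    intro h f
    apply eB.injective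
    funext x
    have h1 := heB ⟨β h, ⟨h, rfl⟩⟩ (s0 f) x
    simp only at h1
    rw [h1]
    simp only [s0, Equiv.trans_apply, Equiv.apply_symm_apply, Equiv.arrowCongr_apply,
      Function.comp_apply, Equiv.coe_refl, id_eq]
    have h2 := heA ⟨α h, ⟨h, rfl⟩⟩ f (φ.symm x)
    simp only at h2
    have h3 : φ.symm (x * ⟨β h, ⟨h, rfl⟩⟩) = φ.symm x * ⟨α h, ⟨h, rfl⟩⟩ := by
      rw [map_mul]
      congr 1
      rw [MulEquiv.symm_apply_eq, hφ]
    change eA (rhoU G (α h) f) (φ.symm x) = eA f (φ.symm (x * ⟨β h, ⟨h, rfl⟩⟩))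
    rw [h3, h2]
  let _ : MulAction H (Uv G) := MulAction.compHom (Uv G) ((rhoU G).comp β)
  have hsm : ∀ (h : H) (u : Uv G), h • u = rhoU G (β h) u := fun _ _ => rfl
  have hst : ∀ h : H, h • (s0 (ptU T)) = s0 (ptU T) ↔ h • (ptU T) = ptU T := by
    intro h
    rw [hsm, hsm, ← hs0, s0.injective.eq_iff, rhoU_ptU, rhoU_ptU, hT]
  refine ⟨(s0.trans (exchPerm hst))⁻¹, ?_, ?_⟩
  · rw [Equiv.Perm.inv_eq_iff_eq]
    change ptU T = exch H (s0 (ptU T)) (ptU T) (s0 (ptU T))
    have := exch_left (A := H) (fun b => (hst b).1) (1 : H)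
    rw [one_smul, one_smul] at this
    exact this.symm
  · intro h
    have key : (s0.trans (exchPerm hst)) * rhoU G (α h) = rhoU G (β h) * (s0.trans (exchPerm hst)) := by
      ext1 f
      change exch H _ _ (s0 (rhoU G (α h) f)) = rhoU G (β h) (exch H _ _ (s0 f))
      rw [hs0, ← hsm, exch_smul hst, hsm]
    rw [inv_mul_eq_iff_eq_mul, ← mul_assoc, key, mul_assoc, mul_inv_cancel, mul_one]

end cofree

end Pool.Agent.helper11.Boone
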