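import Mathlib
import Pool.Agent.helper11.Boone.Cofree

/-!
Amalgams in permutation groups of cofree sets: if `α : F → G` and `β : F → K` have the same kernel then `K`
acts on the cofree `G`-set in such a way that `β f` acts as `α f`.
-/

namespace Pool.Agent.helper11.Boone

/-- The cofree `G`-set with values in `Z → Bool`. -/
abbrev Uz (Z G : Type) : Type := G → (Z → Bool)

/-- The action of `G` by right translation of the argument. -/
def rhoZ (Z G : Type) [Group G] : G →* Equiv.Perm (Uz Z G) where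
  toFun g :=
    { toFun := fun f x => f (x * g)
      invFun := fun f x => f (x * g⁻¹)
      left_inv := fun f => by funext x; simp
      right_inv := fun f => by funext x; simp }
  map_one' := by ext f x; simp
  map_mul' g h := by ext f x; simp [mul_assoc]

lemma rhoZ_apply {Z G : Type} [Group G] (g : G) (f : Uz Z G) (x : G) :
    rhoZ Z G g f x = f (x * g) := rfl

lemma rhoZ_injective {Z G : Type} [Nonempty Z] [Group G] : Function.Injective (rhoZ Z G) := by
  classical
  rw [injective_iff_map_eq_one]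
  intro g hg
  have h1 := DFunLike.congr_fun hg (fun x _ => if x = 1 then true else false)
  have h2 := congrFun h1 1
  rw [rhoZ_apply, one_mul, Equiv.Perm.one_apply] at h2
  have h3 := congrFun h2 (Classical.arbitrary Z)
  simpa using h3

/-- Restricted to a subgroup `A`, the cofree set is a cofree `A`-set. -/
lemma exists_cofreeZ {Z G : Type} [Group G] [Infinite Z] (hZ : Cardinal.mk G ≤ Cardinal.mk Z)
    (A : Subgroup G) : ∃ e : Uz Z G ≃ (A → Z → Bool),
    ∀ (a : A) (f : Uz Z G) (x : A), e (rhoZ Z G a f) x = e f (x * a) := by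
  classical
  have hcard : Nonempty (((G ⧸ A) × Z) ≃ Z) := by
    rw [← Cardinal.eq]
    simp only [Cardinal.mk_prod, Cardinal.lift_id]
    refine Cardinal.mul_eq_right (Cardinal.aleph0_le_mk Z) ?_ (by simp)
    exact le_trans (Cardinal.mk_le_of_surjective (QuotientGroup.mk_surjective (s := A))) hZ
  obtain ⟨c⟩ := hcard
  let e1 : ((G ⧸ A) → Z → Bool) ≃ (Z → Bool) :=
    (Equiv.curry (G ⧸ A) Z Bool).symm.trans (Equiv.arrowCongr c (Equiv.refl Bool))
  let e0 : Uz Z G ≃ (A → (G ⧸ A) → Z → Bool) :=
    { toFun := fun f a q => f (q.out * a)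
      invFun := fun F x => F ⟨(QuotientGroup.mk x : G ⧸ A).out⁻¹ * x, by
        have : (QuotientGroup.mk (QuotientGroup.mk x : G ⧸ A).out : G ⧸ A) = QuotientGroup.mk x :=
          Quotient.out_eq' _
        exact QuotientGroup.eq.1 this⟩ (QuotientGroup.mk x)
      left_inv := fun f => by
        funext x
        simp
      right_inv := fun F => by
        funext a q
        have hq : (QuotientGroup.mk (q.out * (a : G)) : G ⧸ A) = q := by
          rw [QuotientGroup.mk_mul_of_mem _ a.2]
          exact Quotient.out_eq' q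
        simp only [hq]
        congr 1
        simp }
  refine ⟨e0.trans (Equiv.arrowCongr (Equiv.refl A) e1), ?_⟩
  intro a f x
  simp only [Equiv.trans_apply, Equiv.arrowCongr_apply, Equiv.coe_refl, Function.comp_apply,
    Equiv.refl_symm, id_eq]
  congr 1
  funext q
  change rhoZ Z G a f (q.out * x) = f (q.out * (x * a : A))
  rw [rhoZ_apply, Subgroup.coe_mul, mul_assoc]

/-- The amalgamation lemma. -/
theorem exists_amalgam {Z G K F : Type} [Group G] [Group K] [Group F] [Infinite Z]
    (hG : Cardinal.mk G ≤ Cardinal.mk Z) (hK : Cardinal.mk K ≤ Cardinal.mk Z)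
    (α : F →* G) (β : F →* K) (hker : ∀ h, α h = 1 ↔ β h = 1) :
    ∃ θ : K →* Equiv.Perm (Uz Z G), Function.Injective θ ∧ ∀ f, θ (β f) = rhoZ Z G (α f) := by
  classical
  have hk : α.ker = β.ker := by
    ext h
    rw [MonoidHom.mem_ker, MonoidHom.mem_ker, hker]
  let φ : α.range ≃* β.range :=
    ((QuotientGroup.quotientKerEquivRange α).symm.trans (QuotientGroup.quotientMulEquivOfEq hk)).trans
      (QuotientGroup.quotientKerEquivRange β)
  have hφ : ∀ h, φ ⟨α h, ⟨h, rfl⟩⟩ = ⟨β h, ⟨h, rfl⟩⟩ := by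
    intro h
    have h1 : (QuotientGroup.quotientKerEquivRange α).symm ⟨α h, ⟨h, rfl⟩⟩ = (h : F ⧸ α.ker) := by
      rw [MulEquiv.symm_apply_eq]
      rfl
    simp only [φ, MulEquiv.trans_apply, h1]
    rfl
  obtain ⟨eA, heA⟩ := exists_cofreeZ hG α.range
  obtain ⟨eB, heB⟩ := exists_cofreeZ hK β.range
  let s0 : Uz Z G ≃ Uz Z K :=
    (eA.trans (Equiv.arrowCongr φ.toEquiv (Equiv.refl (Z → Bool)))).trans eB.symm
  have hs0 : ∀ (h : F) (f : Uz Z G), s0 (rhoZ Z G (α h) f) = rhoZ Z K (β h) (s0 f) := by
    intro h f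
    apply eB.injective
    funext x
    have h1 := heB ⟨β h, ⟨h, rfl⟩⟩ (s0 f) x
    simp only at h1
    rw [h1]
    simp only [s0, Equiv.trans_apply, Equiv.apply_symm_apply, Equiv.arrowCongr_apply,
      Function.comp_apply, Equiv.coe_refl, id_eq]
    have h2 := heA ⟨α h, ⟨h, rfl⟩⟩ f (φ.symm x)
    simp only at h2
    have h3 : φ.symm (x * ⟨β h, ⟨h, rfl⟩⟩) = φ.symm x * ⟨α h, ⟨h, rfl⟩⟩ := by
      rw [map_mul]
      congr 1
      rw [MulEquiv.symm_apply_eq, hφ]
    change eA (rhoZ Z G (α h) f) (φ.symm x) = eA f (φ.symm (x * ⟨β h, ⟨h, rfl⟩⟩))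
    rw [h3, h2]
  let θ : K →* Equiv.Perm (Uz Z G) :=
    { toFun := fun k => (s0.trans (rhoZ Z K k)).trans s0.symm
      map_one' := by
        ext1 f
        simp
      map_mul' := fun k l => by
        ext1 f
        simp }
  refine ⟨θ, ?_, ?_⟩
  · rw [injective_iff_map_eq_one]
    intro k hk1
    have : Function.Injective (rhoZ Z K) := rhoZ_injective
    rw [injective_iff_map_eq_one] at this
    apply this
    ext1 f
    have h1 := DFunLike.congr_fun hk1 (s0.symm f)
    have h2 : s0.symm (rhoZ Z K k (s0 (s0.symm f))) = s0.symm f := h1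
    rw [Equiv.apply_symm_apply] at h2
    exact s0.symm.injective h2
  · intro f
    ext1 u
    change s0.symm (rhoZ Z K (β f) (s0 u)) = rhoZ Z G (α f) u
    rw [← hs0, Equiv.symm_apply_apply]

end Pool.Agent.helper11.Boone
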