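import Mathlib

/-! Affine machines on `ℤ^k` (shared definitions for MP_1b0330_gt, modules M2a and M2b). -/

namespace Pool.Agent.helper11.Boone

/-- A rule of an affine machine on `ℤ^k`: the bijection `a + p∘u ↦ b + q∘u` (`u ∈ ℤ^k`, coordinatewise
product) between two cosets. `p j = q j = 0` means: coordinate `j` must equal `a j` exactly and becomes
`b j` (use it for the state); `p j = q j = 1`, `a j = b j = 0`: coordinate `j` is untouched;
`p j = B, q j = 1`: pop the top digit `a j` of a stack written in base `B`, and so on. -/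
structure Rule (k : ℕ) where
  a : Fin k → ℤ
  p : Fin k → ℤ
  b : Fin k → ℤ
  q : Fin k → ℤ
  hpq : ∀ j, p j = 0 ↔ q j = 0

/-- The graph of the rule. -/
def Rule.Rel {k : ℕ} (ρ : Rule k) (z z' : Fin k → ℤ) : Prop :=
  ∃ u : Fin k → ℤ, (∀ j, z j = ρ.a j + ρ.p j * u j) ∧ (∀ j, z' j = ρ.b j + ρ.q j * u j)

/-- One step of the machine. -/
def Step {k : ℕ} (M : List (Rule k)) (z z' : Fin k → ℤ) : Prop := ∃ ρ ∈ M, ρ.Rel z z'

end Pool.Agent.helper11.Boone
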