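import Mathlib
import Pool.Agent.helper11.Boone.Defs
import Pool.Agent.helper11.Boone.Cofree

/-!
Lamplighter groups over `ℤ^k` and the permutation model of the group of an affine machine.
-/

namespace Pool.Agent.helper11.Boone

/-- The (unrestricted) lamplighter group of an additive commutative group. -/
@[ext]
structure Lamp (V : Type) where
  n : V → ZMod 2
  g : V

namespace Lamp

variable {V W : Type} [AddCommGroup V] [AddCommGroup W]

instance : Mul (Lamp V) := ⟨fun x y => ⟨fun v => x.n v + y.n (v - x.g), x.g + y.g⟩⟩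
instance : One (Lamp V) := ⟨⟨fun _ => 0, 0⟩⟩
instance : Inv (Lamp V) := ⟨fun x => ⟨fun v => x.n (v + x.g), -x.g⟩⟩

lemma mul_n (x y : Lamp V) (v : V) : (x * y).n v = x.n v + y.n (v - x.g) := rfl
lemma mul_g (x y : Lamp V) : (x * y).g = x.g + y.g := rfl
lemma one_n (v : V) : (1 : Lamp V).n v = 0 := rfl
lemma one_g : (1 : Lamp V).g = 0 := rfl
lemma inv_n (x : Lamp V) (v : V) : (x⁻¹).n v = x.n (v + x.g) := rfl
lemma inv_g (x : Lamp V) : (x⁻¹).g = -x.g := rfl

lemma add_self_zmod2 (a : ZMod 2) : a + a = 0 := CharTwo.add_self_eq_zero a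

instance : Group (Lamp V) :=
  Group.ofLeftAxioms
    (fun x y z => by
      ext1
      · funext v
        simp only [mul_n, mul_g]
        rw [add_assoc, sub_sub]
      · simp only [mul_g, add_assoc])
    (fun x => by
      ext1
      · funext v
        simp [mul_n, one_n, one_g]
      · simp [mul_g, one_g])
    (fun x => by
      ext1
      · funext v
        simp only [mul_n, inv_n, inv_g, one_n, sub_neg_eq_add]
        exact add_self_zmod2 _
      · simp [mul_g, one_g, inv_g])

/-- Translations. -/
def X (v : V) : Lamp V := ⟨fun _ => 0, v⟩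

open Classical in
/-- The lamp at `v`. -/
noncomputable def T (v : V) : Lamp V := ⟨fun w => if w = v then 1 else 0, 0⟩

lemma X_add (v w : V) : X (v + w) = X v * X w := by
  ext1
  · funext u
    simp [mul_n, X]
  · rfl

lemma X_zero : X (0 : V) = 1 := rfl

lemma X_neg (v : V) : X (-v) = (X v)⁻¹ := by
  rw [eq_inv_iff_mul_eq_one, ← X_add, neg_add_cancel, X_zero]

lemma X_T (v w : V) : X v * T w * (X v)⁻¹ = T (v + w) := by
  ext1
  · funext u
    simp only [mul_n, inv_n, X, T, mul_g]
    have : u - v = w ↔ u = v + w := by rw [sub_eq_iff_eq_add, add_comm w v]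
    by_cases h : u = v + w
    · rw [if_pos h, if_pos (this.2 h)]; simp
    · rw [if_neg h, if_neg (fun h' => h (this.1 h'))]; simp
  · simp [mul_g, inv_g, X, T]

/-- The subgroup of lamps supported in `E`. -/
def lampsIn (E : V → Prop) : Subgroup (Lamp V) where
  carrier := {x | x.g = 0 ∧ ∀ v, ¬ E v → x.n v = 0}
  one_mem' := ⟨rfl, fun _ _ => rfl⟩
  mul_mem' := by
    rintro x y ⟨hx1, hx2⟩ ⟨hy1, hy2⟩
    refine ⟨by rw [mul_g, hx1, hy1, add_zero], fun v hv => ?_⟩
    rw [mul_n, hx1, sub_zero, hx2 v hv, hy2 v hv, add_zero]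
  inv_mem' := by
    rintro x ⟨hx1, hx2⟩
    refine ⟨by rw [inv_g, hx1, neg_zero], fun v hv => ?_⟩
    rw [inv_n, hx1, add_zero, hx2 v hv]

lemma mem_lampsIn {E : V → Prop} {x : Lamp V} :
    x ∈ lampsIn E ↔ x.g = 0 ∧ ∀ v, ¬ E v → x.n v = 0 := Iff.rfl

lemma T_mem_lampsIn (E : V → Prop) (v : V) : T v ∈ lampsIn E ↔ E v := by
  rw [mem_lampsIn]
  constructor
  · rintro ⟨-, h⟩
    by_contra hv
    have := h v hv
    simp [T] at this
  · intro h
    refine ⟨rfl, fun w hw => ?_⟩
    rw [T]
    simp only
    rw [if_neg]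
    rintro rfl
    exact hw h

/-- Functoriality for injective affine maps. -/
noncomputable def map (a : V) (f : W →+ V) (hf : Function.Injective f) : Lamp W →* Lamp V where
  toFun x := ⟨Function.extend (fun w => a + f w) x.n 0, f x.g⟩
  map_one' := by
    ext1
    · funext v
      by_cases h : ∃ w, a + f w = v
      · obtain ⟨w, rfl⟩ := h
        have hi : Function.Injective (fun w => a + f w) := fun x y hxy => hf (add_left_cancel hxy)
        exact hi.extend_apply _ _ w
      · exact Function.extend_apply' _ _ _ h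
    · exact map_zero f
  map_mul' x y := by
    have hi : Function.Injective (fun w => a + f w) := fun x y hxy => hf (add_left_cancel hxy)
    ext1
    · funext v
      rw [mul_n]
      by_cases h : ∃ w, a + f w = v
      · obtain ⟨w, rfl⟩ := h
        have h1 : a + f w - f x.g = a + f (w - x.g) := by rw [map_sub]; abel
        rw [h1]
        have e1 := hi.extend_apply (x * y).n 0 w
        have e2 := hi.extend_apply x.n 0 w
        have e3 := hi.extend_apply y.n 0 (w - x.g)
        simp only at e1 e2 e3 ⊢
        rw [e1, e2, e3, mul_n]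
      · have h' : ¬ ∃ w, a + f w = v - f x.g := by
          rintro ⟨w, hw⟩
          exact h ⟨w + x.g, by rw [map_add, ← add_assoc, hw, sub_add_cancel]⟩
        simp only
        rw [Function.extend_apply' _ _ _ h, Function.extend_apply' _ _ _ h,
          Function.extend_apply' _ _ _ h']
        simp
    · exact map_add f _ _

variable {a : V} {f : W →+ V} {hf : Function.Injective f}

lemma map_g (x : Lamp W) : (map a f hf x).g = f x.g := rfl

lemma map_n (x : Lamp W) (w : W) : (map a f hf x).n (a + f w) = x.n w := by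
  have hi : Function.Injective (fun w => a + f w) := fun x y hxy => hf (add_left_cancel hxy)
  exact hi.extend_apply x.n 0 w

lemma map_n' (x : Lamp W) (v : V) (h : ¬ ∃ w, a + f w = v) : (map a f hf x).n v = 0 :=
  Function.extend_apply' _ _ _ h

lemma map_X (w : W) : map a f hf (X w) = X (f w) := by
  ext1
  · funext v
    by_cases h : ∃ w, a + f w = v
    · obtain ⟨w, rfl⟩ := h
      rw [map_n]
      rfl
    · rw [map_n' _ _ h]
      rfl
  · rfl

lemma map_T_zero : map a f hf (T 0) = T a := by
  ext1
  · funext v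
    by_cases h : ∃ w, a + f w = v
    · obtain ⟨w, rfl⟩ := h
      rw [map_n]
      simp only [T]
      have : w = 0 ↔ a + f w = a := by
        rw [add_eq_left, ← map_zero f, hf.eq_iff]
      by_cases hw : w = 0
      · rw [if_pos hw, if_pos (this.1 hw)]
      · rw [if_neg hw, if_neg (fun h => hw (this.2 h))]
    · rw [map_n' _ _ h]
      simp only [T]
      rw [if_neg]
      rintro rfl
      exact h ⟨0, by rw [map_zero, add_zero]⟩
  · exact map_zero f

lemma map_injective : Function.Injective (map a f hf) := by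
  intro x y hxy
  ext1
  · funext w
    rw [← map_n (a := a) (f := f) (hf := hf) x w, hxy, map_n]
  · apply hf
    rw [← map_g (a := a) (f := f) (hf := hf) x, hxy, map_g]

lemma map_mem_lampsIn (E : V → Prop) (x : Lamp W) :
    map a f hf x ∈ lampsIn E ↔ x ∈ lampsIn (fun w => E (a + f w)) := by
  rw [mem_lampsIn, mem_lampsIn, map_g]
  constructor
  · rintro ⟨h1, h2⟩
    refine ⟨hf (by rw [h1, map_zero]), fun w hw => ?_⟩
    rw [← map_n (a := a) (f := f) (hf := hf) x w]
    exact h2 _ hw
  · rintro ⟨h1, h2⟩
    refine ⟨by rw [h1, map_zero], fun v hv => ?_⟩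
    by_cases h : ∃ w, a + f w = v
    · obtain ⟨w, rfl⟩ := h
      rw [map_n]
      exact h2 w hv
    · exact map_n' _ _ h

end Lamp

end Pool.Agent.helper11.Boone
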