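import Mathlib
import Pool.Agent.helper11.Boone.Lamp

/-!
The permutation model of the group of an affine machine (lower bound), and the derivation of
`[κ, t(v)] = 1` in any group satisfying the relations (upper bound).
-/

namespace Pool.Agent.helper11.Boone

variable {k : ℕ}

/-- The equivalence class of `0`. -/
def EqZero (M : List (Rule k)) (v : Fin k → ℤ) : Prop := Relation.EqvGen (Step M) v 0

/-- The index group of a rule. -/
def Rule.W (ρ : Rule k) : AddSubgroup (Fin k → ℤ) where
  carrier := {u | ∀ j, ρ.p j = 0 → u j = 0}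
  zero_mem' := fun _ _ => rfl
  add_mem' := by
    intro a b ha hb j hj
    simp [ha j hj, hb j hj]
  neg_mem' := by
    intro a ha j hj
    simp [ha j hj]

/-- Coordinatewise multiplication. -/
def Rule.mulHom (ρ : Rule k) (c : Fin k → ℤ) : ρ.W →+ (Fin k → ℤ) where
  toFun u := fun j => c j * (u : Fin k → ℤ) j
  map_zero' := by funext j; simp
  map_add' u v := by funext j; simp [mul_add]

lemma Rule.mulHom_injective (ρ : Rule k) (c : Fin k → ℤ) (hc : ∀ j, c j = 0 → ρ.p j = 0) :
    Function.Injective (ρ.mulHom c) := by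
  intro u v h
  apply Subtype.ext
  funext j
  have h1 : c j * (u : Fin k → ℤ) j = c j * (v : Fin k → ℤ) j := congrFun h j
  by_cases hj : c j = 0
  · rw [u.2 j (hc j hj), v.2 j (hc j hj)]
  · exact mul_left_cancel₀ hj h1

lemma rel_step {M : List (Rule k)} {ρ : Rule k} (hρ : ρ ∈ M) (u : Fin k → ℤ) :
    EqZero M (ρ.a + fun j => ρ.p j * u j) ↔ EqZero M (ρ.b + fun j => ρ.q j * u j) := by
  have hs : Step M (ρ.a + fun j => ρ.p j * u j) (ρ.b + fun j => ρ.q j * u j) :=
    ⟨ρ, hρ, u, fun _ => rfl, fun _ => rfl⟩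
  have h1 := Relation.EqvGen.rel _ _ hs
  constructor
  · intro h
    exact (h1.symm _ _).trans _ _ _ h
  · intro h
    exact h1.trans _ _ _ h

/-- The group on which everything acts. -/
abbrev LG (k : ℕ) : Type := Lamp (Fin k → ℤ)

/-- The image of the stable letter in the permutation model. -/
lemma exists_s (M : List (Rule k)) (ρ : Rule k) (hρ : ρ ∈ M) :
    ∃ s : Equiv.Perm (Uv (LG k)), s (ptU (Lamp.lampsIn (EqZero M))) = ptU (Lamp.lampsIn (EqZero M)) ∧
      (∀ j, s * rhoU (LG k) (Lamp.X (Pi.single j (ρ.q j))) =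
        rhoU (LG k) (Lamp.X (Pi.single j (ρ.p j))) * s) ∧
      s * rhoU (LG k) (Lamp.T ρ.b) = rhoU (LG k) (Lamp.T ρ.a) * s := by
  have hp : Function.Injective (ρ.mulHom ρ.p) := ρ.mulHom_injective ρ.p (fun j h => h)
  have hq : Function.Injective (ρ.mulHom ρ.q) := ρ.mulHom_injective ρ.q (fun j h => (ρ.hpq j).2 h)
  obtain ⟨s, hs1, hs2⟩ := exists_conj (Lamp.lampsIn (EqZero M))
    (Lamp.map ρ.a (ρ.mulHom ρ.p) hp) (Lamp.map ρ.b (ρ.mulHom ρ.q) hq)
    (fun h => (map_eq_one_iff _ Lamp.map_injective).trans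
      (map_eq_one_iff _ Lamp.map_injective).symm)
    (fun h => by
      rw [Lamp.map_mem_lampsIn, Lamp.map_mem_lampsIn]
      have : (fun w : ρ.W => EqZero M (ρ.a + ρ.mulHom ρ.p w)) =
          (fun w : ρ.W => EqZero M (ρ.b + ρ.mulHom ρ.q w)) := by
        funext w
        exact propext (rel_step hρ w)
      rw [this])
  refine ⟨s, hs1, fun j => ?_, ?_⟩
  · by_cases hj : ρ.p j = 0
    · rw [hj, (ρ.hpq j).1 hj, Pi.single_zero, Lamp.X_zero, map_one, mul_one, one_mul]
    · have hW : (Pi.single j 1 : Fin k → ℤ) ∈ ρ.W := by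
        intro j' hj'
        have : j' ≠ j := by
          rintro rfl
          exact hj hj'
        simp [this]
      have h1 := hs2 (Lamp.X ⟨Pi.single j 1, hW⟩)
      rw [Lamp.map_X, Lamp.map_X] at h1
      have e1 : ∀ c : Fin k → ℤ, ρ.mulHom c ⟨Pi.single j 1, hW⟩ = Pi.single j (c j) := by
        intro c
        funext j'
        change c j' * (Pi.single j 1 : Fin k → ℤ) j' = _
        by_cases h : j' = j
        · subst h
          simp
        · simp [h]
      rw [e1, e1] at h1
      exact h1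
  · have h1 := hs2 (Lamp.T 0)
    rw [Lamp.map_T_zero, Lamp.map_T_zero] at h1
    exact h1

/-- Extend a permutation to two copies. -/
def two {U : Type} : Equiv.Perm U →* Equiv.Perm (U × Bool) where
  toFun σ := Equiv.prodCongr σ (Equiv.refl Bool)
  map_one' := by ext1 ⟨u, b⟩; rfl
  map_mul' σ τ := by ext1 ⟨u, b⟩; rfl

lemma two_apply {U : Type} (σ : Equiv.Perm U) (u : U) (b : Bool) : two σ (u, b) = (σ u, b) := rfl

lemma swap_comm_of_fix {U : Type} [DecidableEq U] {σ : Equiv.Perm U} {p : U} (h : σ p = p) :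
    Equiv.swap (p, false) (p, true) * two σ = two σ * Equiv.swap (p, false) (p, true) := by
  rw [Equiv.swap_mul_eq_mul_swap]
  have h1 : ∀ b : Bool, (two σ)⁻¹ (p, b) = (p, b) := by
    intro b
    rw [Equiv.Perm.inv_eq_iff_eq, two_apply, h]
  rw [h1, h1]

lemma fix_of_swap_comm {U : Type} [DecidableEq U] {σ : Equiv.Perm U} {p : U}
    (h : Equiv.swap (p, false) (p, true) * two σ = two σ * Equiv.swap (p, false) (p, true)) :
    σ p = p := by
  by_contra hn
  have h1 := DFunLike.congr_fun h (p, false)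
  rw [Equiv.Perm.mul_apply, Equiv.Perm.mul_apply, Equiv.swap_apply_left, two_apply, two_apply,
    Equiv.swap_apply_of_ne_of_ne] at h1
  · simp at h1
  · intro h2
    exact hn (congrArg Prod.fst h2)
  · intro h2
    exact hn (congrArg Prod.fst h2)

/-- The permutation model of the group of the machine `M`. -/
theorem exists_model (M : List (Rule k)) :
    ∃ (Ω : Type) (X : (Fin k → ℤ) → Equiv.Perm Ω) (t κ : Equiv.Perm Ω)
      (s : Fin M.length → Equiv.Perm Ω),
      (∀ v w, X (v + w) = X v * X w) ∧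
      (∀ i j, s i * X (Pi.single j ((M.get i).q j)) = X (Pi.single j ((M.get i).p j)) * s i) ∧
      (∀ i, s i * (X (M.get i).b * t * (X (M.get i).b)⁻¹) =
        (X (M.get i).a * t * (X (M.get i).a)⁻¹) * s i) ∧
      κ * t = t * κ ∧ (∀ i, κ * s i = s i * κ) ∧
      ∀ v, κ * (X v * t * (X v)⁻¹) = (X v * t * (X v)⁻¹) * κ → EqZero M v := by
  classical
  choose s hs1 hs2 hs3 using fun i : Fin M.length => exists_s M (M.get i) (List.get_mem M i)
  set p := ptU (Lamp.lampsIn (EqZero M)) with hp
  have hT : ∀ v : Fin k → ℤ, rhoU (LG k) (Lamp.T v) =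
      rhoU (LG k) (Lamp.X v) * rhoU (LG k) (Lamp.T 0) * (rhoU (LG k) (Lamp.X v))⁻¹ := by
    intro v
    rw [← map_mul, ← map_inv, ← map_mul, Lamp.X_T, add_zero]
  have hT2 : ∀ v : Fin k → ℤ, two (rhoU (LG k) (Lamp.X v)) * two (rhoU (LG k) (Lamp.T 0)) *
      (two (rhoU (LG k) (Lamp.X v)))⁻¹ = two (rhoU (LG k) (Lamp.T v)) := by
    intro v
    rw [hT v, map_mul, map_mul, map_inv]
  refine ⟨Uv (LG k) × Bool, fun v => two (rhoU (LG k) (Lamp.X v)), two (rhoU (LG k) (Lamp.T 0)),
    Equiv.swap (p, false) (p, true), fun i => two (s i), ?_, ?_, ?_, ?_, ?_, ?_⟩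
  · intro v w
    simp only
    rw [Lamp.X_add, map_mul, map_mul]
  · intro i j
    simp only
    rw [← map_mul, ← map_mul, hs2]
  · intro i
    simp only
    rw [hT2, hT2, ← map_mul, ← map_mul, hs3]
  · apply swap_comm_of_fix
    rw [hp, rhoU_ptU, Lamp.T_mem_lampsIn]
    exact Relation.EqvGen.refl _
  · intro i
    exact swap_comm_of_fix (hs1 i)
  · intro v hv
    simp only at hv
    rw [hT2] at hv
    have h1 := fix_of_swap_comm hv
    rw [hp, rhoU_ptU, Lamp.T_mem_lampsIn] at h1
    exact h1

section upper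

variable {Γ : Type} [Group Γ]

/-- The word `x^v`. -/
def XX (x : Fin k → Γ) (v : Fin k → ℤ) : Γ := (List.ofFn fun j => x j ^ v j).prod

lemma map_XX {Γ' : Type} [Group Γ'] (F : Γ →* Γ') (x : Fin k → Γ) (v : Fin k → ℤ) :
    F (XX x v) = XX (fun j => F (x j)) v := by
  rw [XX, XX, map_list_prod, List.map_ofFn]
  congr 2
  funext j
  simp

lemma XX_add {x : Fin k → Γ} (hx : ∀ i j, x i * x j = x j * x i) (v w : Fin k → ℤ) :
    XX x (v + w) = XX x v * XX x w := by
  let C := Subgroup.closure (Set.range x)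
  have hC : IsMulCommutative C := Subgroup.isMulCommutative_closure (by
    rintro _ ⟨i, rfl⟩ _ ⟨j, rfl⟩
    exact hx i j)
  let _ : CommGroup C := { (inferInstance : Group C) with mul_comm := hC.is_comm.comm }
  let y : Fin k → C := fun i => ⟨x i, Subgroup.subset_closure ⟨i, rfl⟩⟩
  have h : ∀ v, XX x v = C.subtype (∏ j, y j ^ v j) := by
    intro v
    rw [← List.prod_ofFn, map_list_prod, List.map_ofFn, XX]
    rfl
  rw [h, h, h, ← map_mul, ← Finset.prod_mul_distrib]
  congr 1
  refine Finset.prod_congr rfl fun j _ => ?_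
  rw [Pi.add_apply, zpow_add]

lemma XX_zero (x : Fin k → Γ) : XX x 0 = 1 := by
  rw [XX]
  apply List.prod_eq_one
  intro y hy
  rw [List.mem_ofFn'] at hy
  obtain ⟨j, rfl⟩ := hy
  simp

theorem upper (M : List (Rule k)) (x : Fin k → Γ) (hx : ∀ i j, x i * x j = x j * x i) (t κ : Γ)
    (s : Fin M.length → Γ)
    (h1 : ∀ i j, s i * x j ^ ((M.get i).q j) = x j ^ ((M.get i).p j) * s i)
    (h2 : ∀ i, s i * (XX x (M.get i).b * t * (XX x (M.get i).b)⁻¹) =
      (XX x (M.get i).a * t * (XX x (M.get i).a)⁻¹) * s i)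
    (h3 : κ * t = t * κ) (h4 : ∀ i, κ * s i = s i * κ) (v : Fin k → ℤ) (hv : EqZero M v) :
    κ * (XX x v * t * (XX x v)⁻¹) = (XX x v * t * (XX x v)⁻¹) * κ := by
  set tt : (Fin k → ℤ) → Γ := fun v => XX x v * t * (XX x v)⁻¹ with htt
  have hadd : ∀ v w, tt (v + w) = XX x w * tt v * (XX x w)⁻¹ := by
    intro v w
    simp only [htt]
    rw [add_comm v w, XX_add hx]
    group
  have hxx : ∀ (i : Fin M.length) (u : Fin k → ℤ),
      s i * XX x (fun j => (M.get i).q j * u j) = XX x (fun j => (M.get i).p j * u j) * s i := by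
    intro i u
    have h : MulAut.conj (s i) (XX x (fun j => (M.get i).q j * u j)) =
        XX x (fun j => (M.get i).p j * u j) := by
      have e1 := map_XX (MulAut.conj (s i)).toMonoidHom x (fun j => (M.get i).q j * u j)
      rw [MulEquiv.toMonoidHom_eq_coe, MonoidHom.coe_coe] at e1
      rw [e1, XX, XX]
      congr 2
      funext j
      rw [zpow_mul, zpow_mul, ← map_zpow, MulAut.conj_apply, h1, mul_inv_cancel_right]
    rw [MulAut.conj_apply] at h
    rw [← h]
    group
  have hstep : ∀ z z', Step M z z' → ∃ i, s i * tt z' = tt z * s i := by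
    rintro z z' ⟨ρ, hρ, u, hz, hz'⟩
    obtain ⟨i, rfl⟩ := List.get_of_mem hρ
    refine ⟨i, ?_⟩
    have e1 : z = (M.get i).a + fun j => (M.get i).p j * u j := funext hz
    have e2 : z' = (M.get i).b + fun j => (M.get i).q j * u j := funext hz'
    rw [e1, e2, hadd, hadd]
    have hx1 := hxx i u
    have hx2 : s i * (XX x (fun j => (M.get i).q j * u j))⁻¹ =
        (XX x (fun j => (M.get i).p j * u j))⁻¹ * s i := by
      rw [eq_inv_mul_iff_mul_eq, ← mul_assoc, ← hx1]
      group
    calc s i * (XX x (fun j => (M.get i).q j * u j) * tt (M.get i).b *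
          (XX x (fun j => (M.get i).q j * u j))⁻¹)
        = (s i * XX x (fun j => (M.get i).q j * u j)) * tt (M.get i).b *
          (XX x (fun j => (M.get i).q j * u j))⁻¹ := by group
      _ = XX x (fun j => (M.get i).p j * u j) * (s i * tt (M.get i).b) *
          (XX x (fun j => (M.get i).q j * u j))⁻¹ := by rw [hx1]; group
      _ = XX x (fun j => (M.get i).p j * u j) * tt (M.get i).a *
          (s i * (XX x (fun j => (M.get i).q j * u j))⁻¹) := by
            rw [show s i * tt (M.get i).b = tt (M.get i).a * s i from h2 i]; group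
      _ = _ := by rw [hx2]; group
  have hequiv : ∀ z z', Relation.EqvGen (Step M) z z' → (κ * tt z = tt z * κ ↔ κ * tt z' = tt z' * κ) := by
    intro z z' h
    induction h with
    | rel z z' h =>
      obtain ⟨i, hi⟩ := hstep z z' h
      have e1 : Commute κ (s i) := h4 i
      have e2 : tt z' = (s i)⁻¹ * tt z * s i := by rw [mul_assoc, ← hi]; group
      have e3 : tt z = s i * tt z' * (s i)⁻¹ := by rw [hi]; group
      constructor
      · intro h
        have : Commute κ (tt z') := by
          rw [e2]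
          exact (e1.inv_right.mul_right h).mul_right e1
        exact this
      · intro h
        have : Commute κ (tt z) := by
          rw [e3]
          exact (e1.mul_right h).mul_right e1.inv_right
        exact this
    | refl z => rfl
    | symm z z' _ ih => exact ih.symm
    | trans z z' z'' _ _ ih1 ih2 => exact ih1.trans ih2
  have h0 : tt 0 = t := by
    simp only [htt, XX_zero]
    group
  exact (hequiv v 0 hv).2 (by rw [h0, h3])

end upper

end Pool.Agent.helper11.Boone
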