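import Mathlib
import Pool.Agent.helper11.Boone.Model

/-!
A finitely presented group whose word problem decides `EqZero M` for an affine machine `M`.
-/

namespace Pool.Agent.helper11.Boone

variable {k : ℕ}

section gens

variable (k) (m : ℕ)

/-- Number of generators. -/
abbrev ngen : ℕ := k + m + 2

variable {k m}

/-- `x_j`. -/
def gx (m : ℕ) (j : Fin k) : Fin (ngen k m) := ⟨j, by have := j.2; unfold ngen; omega⟩
/-- stable letters -/
def gs (k : ℕ) {m : ℕ} (i : Fin m) : Fin (ngen k m) := ⟨k + i, by have := i.2; unfold ngen; omega⟩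
/-- `t` -/
def gt (k m : ℕ) : Fin (ngen k m) := ⟨k + m, by unfold ngen; omega⟩
/-- `κ` -/
def gk (k m : ℕ) : Fin (ngen k m) := ⟨k + m + 1, by unfold ngen; omega⟩

/-- Assign values to the generators. -/
def gval {Γ : Type} (x : Fin k → Γ) (s : Fin m → Γ) (t κ : Γ) (i : Fin (ngen k m)) : Γ :=
  if h : (i : ℕ) < k then x ⟨i, h⟩
  else if h' : (i : ℕ) < k + m then s ⟨i - k, by omega⟩
  else if (i : ℕ) = k + m then t
  else κ

variable {Γ : Type} (x : Fin k → Γ) (s : Fin m → Γ) (t κ : Γ)

lemma gval_gx (j : Fin k) : gval x s t κ (gx m j) = x j := by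
  simp [gval, gx]

lemma gval_gs (i : Fin m) : gval x s t κ (gs k i) = s i := by
  have := i.2
  rw [gval, dif_neg (by simp [gs]), dif_pos (by simp [gs])]
  congr 1
  apply Fin.ext
  simp [gs]

lemma gval_gt : gval x s t κ (gt k m) = t := by
  simp [gval, gt]

lemma gval_gk : gval x s t κ (gk k m) = κ := by
  rw [gval, dif_neg (by simp only [gk]; omega), dif_neg (by simp only [gk]; omega),
    if_neg (by simp only [gk]; omega)]

end gens

section rels

variable (M : List (Rule k))

/-- The relators in a group, for given values of the generators. -/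
def relSet {Γ : Type} [Group Γ] (x : Fin k → Γ) (s : Fin M.length → Γ) (t κ : Γ) : Set Γ :=
  (⋃ i, Set.range fun j => x i * x j * (x j * x i)⁻¹) ∪
  (⋃ i, Set.range fun j => s i * x j ^ ((M.get i).q j) * (x j ^ ((M.get i).p j) * s i)⁻¹) ∪
  (Set.range fun i => s i * (XX x (M.get i).b * t * (XX x (M.get i).b)⁻¹) *
      ((XX x (M.get i).a * t * (XX x (M.get i).a)⁻¹) * s i)⁻¹) ∪
  {κ * t * (t * κ)⁻¹} ∪
  (Set.range fun i => κ * s i * (s i * κ)⁻¹)

lemma relSet_finite {Γ : Type} [Group Γ] (x : Fin k → Γ) (s : Fin M.length → Γ) (t κ : Γ) :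
    (relSet M x s t κ).Finite := by
  unfold relSet
  refine Set.Finite.union (Set.Finite.union (Set.Finite.union (Set.Finite.union ?_ ?_) ?_) ?_) ?_
  · exact Set.finite_iUnion fun i => Set.finite_range _
  · exact Set.finite_iUnion fun i => Set.finite_range _
  · exact Set.finite_range _
  · exact Set.finite_singleton _
  · exact Set.finite_range _

lemma relSet_map {Γ Γ' : Type} [Group Γ] [Group Γ'] (F : Γ →* Γ') (x : Fin k → Γ)
    (s : Fin M.length → Γ) (t κ : Γ) {r : Γ} (hr : r ∈ relSet M x s t κ) :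
    F r ∈ relSet M (fun j => F (x j)) (fun i => F (s i)) (F t) (F κ) := by
  unfold relSet at hr ⊢
  simp only [Set.mem_union, Set.mem_iUnion, Set.mem_range, Set.mem_singleton_iff] at hr ⊢
  rcases hr with (((⟨i, j, rfl⟩ | ⟨i, j, rfl⟩) | ⟨i, rfl⟩) | rfl) | ⟨i, rfl⟩
  · refine Or.inl (Or.inl (Or.inl (Or.inl ⟨i, j, ?_⟩)))
    simp
  · refine Or.inl (Or.inl (Or.inl (Or.inr ⟨i, j, ?_⟩)))
    simp
  · refine Or.inl (Or.inl (Or.inr ⟨i, ?_⟩))
    simp [map_XX]
  · refine Or.inl (Or.inr ?_)
    simp
  · refine Or.inr ⟨i, ?_⟩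
    simp

lemma relSet_one_iff {Γ : Type} [Group Γ] (x : Fin k → Γ) (s : Fin M.length → Γ) (t κ : Γ) :
    (∀ r ∈ relSet M x s t κ, r = 1) ↔
      (∀ i j, x i * x j = x j * x i) ∧
      (∀ i j, s i * x j ^ ((M.get i).q j) = x j ^ ((M.get i).p j) * s i) ∧
      (∀ i, s i * (XX x (M.get i).b * t * (XX x (M.get i).b)⁻¹) =
        (XX x (M.get i).a * t * (XX x (M.get i).a)⁻¹) * s i) ∧
      κ * t = t * κ ∧ (∀ i, κ * s i = s i * κ) := by
  unfold relSet
  simp only [Set.mem_union, Set.mem_iUnion, Set.mem_range, Set.mem_singleton_iff]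
  constructor
  · intro h
    refine ⟨fun i j => ?_, fun i j => ?_, fun i => ?_, ?_, fun i => ?_⟩
    · rw [← mul_inv_eq_one]
      exact h _ (Or.inl (Or.inl (Or.inl (Or.inl ⟨i, j, rfl⟩))))
    · rw [← mul_inv_eq_one]
      exact h _ (Or.inl (Or.inl (Or.inl (Or.inr ⟨i, j, rfl⟩))))
    · rw [← mul_inv_eq_one]
      exact h _ (Or.inl (Or.inl (Or.inr ⟨i, rfl⟩)))
    · rw [← mul_inv_eq_one]
      exact h _ (Or.inl (Or.inr rfl))
    · rw [← mul_inv_eq_one]
      exact h _ (Or.inr ⟨i, rfl⟩)
  · rintro ⟨h1, h2, h3, h4, h5⟩ r hr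
    rcases hr with (((⟨i, j, rfl⟩ | ⟨i, j, rfl⟩) | ⟨i, rfl⟩) | rfl) | ⟨i, rfl⟩
    · rw [mul_inv_eq_one]; exact h1 i j
    · rw [mul_inv_eq_one]; exact h2 i j
    · rw [mul_inv_eq_one]; exact h3 i
    · rw [mul_inv_eq_one]; exact h4
    · rw [mul_inv_eq_one]; exact h5 i

/-- The relators as a subset of the free group. -/
def Rels : Set (FreeGroup (Fin (ngen k M.length))) :=
  relSet M (fun j => FreeGroup.of (gx M.length j)) (fun i => FreeGroup.of (gs k i))
    (FreeGroup.of (gt k M.length)) (FreeGroup.of (gk k M.length))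

/-- The test word, in a group. -/
def tw {Γ : Type} [Group Γ] (x : Fin k → Γ) (t κ : Γ) (v : Fin k → ℤ) : Γ :=
  κ * (XX x v * t * (XX x v)⁻¹) * ((XX x v * t * (XX x v)⁻¹) * κ)⁻¹

lemma map_tw {Γ Γ' : Type} [Group Γ] [Group Γ'] (F : Γ →* Γ') (x : Fin k → Γ) (t κ : Γ)
    (v : Fin k → ℤ) : F (tw x t κ v) = tw (fun j => F (x j)) (F t) (F κ) v := by
  simp [tw, map_XX]

/-- The test word. -/
def TW (v : Fin k → ℤ) : FreeGroup (Fin (ngen k M.length)) :=
  tw (fun j => FreeGroup.of (gx M.length j)) (FreeGroup.of (gt k M.length))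
    (FreeGroup.of (gk k M.length)) v

theorem TW_mem (v : Fin k → ℤ) : TW M v ∈ Subgroup.normalClosure (Rels M) ↔ EqZero M v := by
  constructor
  · intro h
    obtain ⟨Ω, X, t, κ, s, hX, h1, h2, h3, h4, h5⟩ := exists_model M
    -- `X v` is the word in the `X e_j`
    have hX0 : X 0 = 1 := by
      have := hX 0 0
      rw [add_zero] at this
      exact left_eq_mul.1 this
    let Xh : Multiplicative (Fin k → ℤ) →* Equiv.Perm Ω :=
      { toFun := fun v => X v.toAdd
        map_one' := hX0
        map_mul' := fun v w => hX _ _ }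
    have hXX : ∀ v, XX (fun j => X (Pi.single j 1)) v = X v := by
      intro v
      have e1 := map_XX Xh (fun j => Multiplicative.ofAdd (Pi.single j 1 : Fin k → ℤ)) v
      have e2 : XX (fun j => Multiplicative.ofAdd (Pi.single j 1 : Fin k → ℤ)) v =
          Multiplicative.ofAdd v := by
        rw [XX, List.prod_ofFn]
        apply Multiplicative.toAdd.injective
        rw [toAdd_prod]
        simp only [toAdd_zpow, toAdd_ofAdd]
        funext i
        rw [Finset.sum_apply]
        simp [Pi.single_apply]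
      rw [e2] at e1
      exact e1.symm
    have hpow : ∀ j (c : ℤ), X (Pi.single j 1) ^ c = X (Pi.single j c) := by
      intro j c
      have e1 := map_zpow Xh (Multiplicative.ofAdd (Pi.single j 1 : Fin k → ℤ)) c
      have e2 : (Multiplicative.ofAdd (Pi.single j 1 : Fin k → ℤ)) ^ c =
          Multiplicative.ofAdd (Pi.single j c) := by
        apply Multiplicative.toAdd.injective
        rw [toAdd_zpow, toAdd_ofAdd, toAdd_ofAdd]
        funext i
        simp [Pi.single_apply]
      rw [e2] at e1
      exact e1.symm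
    have hone : ∀ r ∈ relSet M (fun j => X (Pi.single j 1)) s t κ, r = 1 := by
      rw [relSet_one_iff]
      refine ⟨fun i j => ?_, fun i j => ?_, fun i => ?_, h3, h4⟩
      · rw [← hX, ← hX, add_comm]
      · rw [hpow, hpow]; exact h1 i j
      · rw [hXX, hXX]; exact h2 i
    let F : FreeGroup (Fin (ngen k M.length)) →* Equiv.Perm Ω :=
      FreeGroup.lift (gval (fun j => X (Pi.single j 1)) s t κ)
    have hF : ∀ r ∈ Rels M, F r = 1 := by
      intro r hr
      apply hone
      have := relSet_map M F _ _ _ _ hr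
      simp only [F, FreeGroup.lift_apply_of, gval_gx, gval_gs, gval_gt, gval_gk] at this
      exact this
    have hle : Subgroup.normalClosure (Rels M) ≤ F.ker :=
      Subgroup.normalClosure_le_normal fun r hr => hF r hr
    have h6 : F (TW M v) = 1 := hle h
    rw [TW, map_tw] at h6
    simp only [F, FreeGroup.lift_apply_of, gval_gx, gval_gt, gval_gk] at h6
    rw [tw, mul_inv_eq_one, hXX] at h6
    exact h5 v h6
  · intro h
    rw [← QuotientGroup.eq_one_iff]
    let π := QuotientGroup.mk' (Subgroup.normalClosure (Rels M))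
    change π (TW M v) = 1
    have hone : ∀ r ∈ relSet M (fun j => π (FreeGroup.of (gx M.length j)))
        (fun i => π (FreeGroup.of (gs k i))) (π (FreeGroup.of (gt k M.length)))
        (π (FreeGroup.of (gk k M.length))), r = 1 := by
      rw [relSet_one_iff]
      have key : ∀ r ∈ Rels M, π r = 1 := fun r hr =>
        (QuotientGroup.eq_one_iff r).2 (Subgroup.subset_normalClosure hr)
      have h0 := (relSet_one_iff M (fun j => π (FreeGroup.of (gx M.length j)))
        (fun i => π (FreeGroup.of (gs k i))) (π (FreeGroup.of (gt k M.length)))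
        (π (FreeGroup.of (gk k M.length)))).1
      refine ⟨fun i j => ?_, fun i j => ?_, fun i => ?_, ?_, fun i => ?_⟩
      · have := key _ (Or.inl (Or.inl (Or.inl (Or.inl (Set.mem_iUnion.2 ⟨i, j, rfl⟩)))))
        rw [← mul_inv_eq_one]
        simpa using this
      · have := key _ (Or.inl (Or.inl (Or.inl (Or.inr (Set.mem_iUnion.2 ⟨i, j, rfl⟩)))))
        rw [← mul_inv_eq_one]
        simpa using this
      · have := key _ (Or.inl (Or.inl (Or.inr ⟨i, rfl⟩)))
        rw [← mul_inv_eq_one]
        simpa [map_XX] using this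
      · have := key _ (Or.inl (Or.inr rfl))
        rw [← mul_inv_eq_one]
        simpa using this
      · have := key _ (Or.inr ⟨i, rfl⟩)
        rw [← mul_inv_eq_one]
        simpa using this
    obtain ⟨g1, g2, g3, g4, g5⟩ := (relSet_one_iff M _ _ _ _).1 hone
    have := upper M _ g1 _ _ _ g2 g3 g4 g5 v h
    rw [TW, map_tw, tw, mul_inv_eq_one]
    exact this

end rels

section words

lemma mk_flatten {α : Type} (L : List (List (α × Bool))) :
    FreeGroup.mk L.flatten = (L.map FreeGroup.mk).prod := by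
  induction L with
  | nil => rfl
  | cons a L ih =>
    rw [List.flatten_cons, ← FreeGroup.mul_mk, ih, List.map_cons, List.prod_cons]

lemma mk_replicate {α : Type} (g : α) (c : ℕ) :
    FreeGroup.mk (List.replicate c (g, true)) = FreeGroup.of g ^ (c : ℤ) := by
  induction c with
  | zero => rfl
  | succ c ih =>
    rw [List.replicate_succ, ← List.singleton_append, ← FreeGroup.mul_mk, ih, Nat.cast_succ,
      add_comm, zpow_add, zpow_one]
    rfl

/-- The word `x^v`, for natural `v`. -/
def XXl (m : ℕ) (v : Fin k → ℕ) : List (Fin (ngen k m) × Bool) :=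
  (List.ofFn fun j => List.replicate (v j) (gx m j, true)).flatten

lemma mk_XXl (m : ℕ) (v : Fin k → ℕ) : FreeGroup.mk (XXl m v) =
    XX (fun j => FreeGroup.of (gx m j)) (fun j => (v j : ℤ)) := by
  rw [XXl, mk_flatten, List.map_ofFn, XX]
  congr 2
  funext j
  exact mk_replicate _ _

/-- The test word as a list. -/
def TWl (m : ℕ) (v : Fin k → ℕ) : List (Fin (ngen k m) × Bool) :=
  ([(gk k m, true)] ++ (XXl m v ++ [(gt k m, true)] ++ FreeGroup.invRev (XXl m v))) ++
    FreeGroup.invRev ((XXl m v ++ [(gt k m, true)] ++ FreeGroup.invRev (XXl m v)) ++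
      [(gk k m, true)])

lemma mk_TWl (M : List (Rule k)) (v : Fin k → ℕ) :
    FreeGroup.mk (TWl M.length v) = TW M (fun j => (v j : ℤ)) := by
  rw [TWl]
  simp only [← FreeGroup.mul_mk, ← FreeGroup.inv_mk, mk_XXl]
  rfl

lemma primrec_XXl (m : ℕ) : Primrec (XXl (k := k) m) := by
  unfold XXl
  refine Primrec.list_flatten.comp (Primrec.list_ofFn fun j => ?_)
  have h1 : ∀ c : ℕ, List.replicate c (gx m j, true) =
      (List.range c).map (fun _ => (gx m j, true)) := by
    intro c
    rw [List.map_const', List.length_range]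
  have h2 : Primrec (fun v : Fin k → ℕ => (List.range (v j)).map (fun _ => (gx m j, true))) := by
    refine Primrec.list_map (Primrec.list_range.comp ?_) (Primrec.const _).to₂
    exact Primrec.fin_app.comp Primrec.id (Primrec.const j)
  exact h2.of_eq fun v => (h1 _).symm

lemma primrec_invRev (n : ℕ) :
    Primrec (FreeGroup.invRev : List (Fin n × Bool) → List (Fin n × Bool)) := by
  have h : Primrec (fun w : List (Fin n × Bool) => (w.map fun g => (g.1, !g.2)).reverse) := by
    refine Primrec.list_reverse.comp (Primrec.list_map Primrec.id ?_)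
    exact (Primrec.pair (Primrec.fst.comp Primrec.snd)
      (Primrec.not.comp (Primrec.snd.comp Primrec.snd))).to₂
  exact h.of_eq fun w => rfl

lemma primrec_TWl (m : ℕ) : Primrec (TWl (k := k) m) := by
  unfold TWl
  have hX := primrec_XXl (k := k) m
  have h1 : Primrec (fun v : Fin k → ℕ =>
      XXl m v ++ [(gt k m, true)] ++ FreeGroup.invRev (XXl m v)) :=
    Primrec.list_append.comp (Primrec.list_append.comp hX (Primrec.const _))
      ((primrec_invRev _).comp hX)
  exact Primrec.list_append.comp (Primrec.list_append.comp (Primrec.const _) h1)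
    ((primrec_invRev _).comp (Primrec.list_append.comp h1 (Primrec.const _)))

end words

/-- An affine machine with undecidable class of `0` gives a finitely presented group with undecidable word
problem. -/
theorem exists_group_of_machine (M : List (Rule k))
    (hM : ¬ ComputablePred (fun v : Fin k → ℕ => Relation.EqvGen (Step M) (fun j => (v j : ℤ)) 0)) :
    ∃ (n : ℕ) (R : List (FreeGroup (Fin n))),
      ¬ ComputablePred (fun w : List (Fin n × Bool) =>
        FreeGroup.mk w ∈ Subgroup.normalClosure {r | r ∈ R}) := by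
  classical
  refine ⟨ngen k M.length, (relSet_finite M _ _ _ _ : (Rels M).Finite).toFinset.toList, fun h => ?_⟩
  have hset : {r | r ∈ (relSet_finite M _ _ _ _ : (Rels M).Finite).toFinset.toList} = Rels M := by
    ext r
    simp only [Finset.mem_toList, Set.Finite.mem_toFinset, Set.mem_ofPred_eq]
    rfl
  rw [hset] at h
  apply hM
  refine ComputablePred.computable_of_manyOneReducible
    (q := fun w : List (Fin (ngen k M.length) × Bool) =>
      FreeGroup.mk w ∈ Subgroup.normalClosure (Rels M))
    ⟨TWl M.length, (primrec_TWl M.length).to_comp, fun v => ?_⟩ h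
  simp only
  rw [mk_TWl, TW_mem]
  rfl

end Pool.Agent.helper11.Boone
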