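import Mathlib
import Pool.Agent.helper11.Boone.Group
import Pool.Agent.helper27.Mach.Final

/-!
The Novikov-Boone theorem: a finitely presented group with undecidable word problem.
-/

namespace Pool.Agent.helper11.Boone

/-- **Novikov-Boone theorem.** There are `n` and a finite list `R` of words in `n` generators such that no
algorithm decides, for a word `w` in the generators, whether `w` is trivial in `⟨Fin n | R⟩`. -/
theorem exists_group : ∃ (n : ℕ) (R : List (FreeGroup (Fin n))),
    ¬ ComputablePred (fun w : List (Fin n × Bool) =>
      FreeGroup.mk w ∈ Subgroup.normalClosure {r | r ∈ R}) := by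
  obtain ⟨k, M, hM⟩ := Pool.Agent.helper27.Mach.exists_machine
  exact exists_group_of_machine M hM

end Pool.Agent.helper11.Boone
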