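import Mathlib

/-!
Two permutations `A`, `B` (of the nonzero integer vectors of the plane) with `A B A = B A B` such that
`A` and `B ^ 4` generate a free group of rank two.
-/

namespace Pool.Agent.helper11.Boone

/-- Nonzero vectors. -/
abbrev Vz : Type := {v : ℤ × ℤ // v ≠ 0}

/-- The shear `(p, q) ↦ (p + q, q)`. -/
def shA : Equiv.Perm Vz where
  toFun v := ⟨(v.1.1 + v.1.2, v.1.2), by
    have := v.2
    intro h
    apply this
    rw [Prod.mk_eq_zero] at h
    ext
    · simp only [Prod.fst_zero]; omega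
    · simp only [Prod.snd_zero]; omega⟩
  invFun v := ⟨(v.1.1 - v.1.2, v.1.2), by
    have := v.2
    intro h
    apply this
    rw [Prod.mk_eq_zero] at h
    ext
    · simp only [Prod.fst_zero]; omega
    · simp only [Prod.snd_zero]; omega⟩
  left_inv v := by ext <;> simp
  right_inv v := by ext <;> simp

/-- The shear `(p, q) ↦ (p, q - p)`. -/
def shB : Equiv.Perm Vz where
  toFun v := ⟨(v.1.1, v.1.2 - v.1.1), by
    have := v.2
    intro h
    apply this
    rw [Prod.mk_eq_zero] at h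
    ext
    · simp only [Prod.fst_zero]; omega
    · simp only [Prod.snd_zero]; omega⟩
  invFun v := ⟨(v.1.1, v.1.2 + v.1.1), by
    have := v.2
    intro h
    apply this
    rw [Prod.mk_eq_zero] at h
    ext
    · simp only [Prod.fst_zero]; omega
    · simp only [Prod.snd_zero]; omega⟩
  left_inv v := by ext <;> simp
  right_inv v := by ext <;> simp

lemma shA_apply (v : Vz) : (shA v).1 = (v.1.1 + v.1.2, v.1.2) := rfl
lemma shB_apply (v : Vz) : (shB v).1 = (v.1.1, v.1.2 - v.1.1) := rfl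
lemma shA_inv_apply (v : Vz) : (shA⁻¹ v).1 = (v.1.1 - v.1.2, v.1.2) := rfl
lemma shB_inv_apply (v : Vz) : (shB⁻¹ v).1 = (v.1.1, v.1.2 + v.1.1) := rfl

lemma braid_sh : shA * shB * shA = shB * shA * shB := by
  ext1 v
  apply Subtype.ext
  simp only [Equiv.Perm.mul_apply, shA_apply, shB_apply]
  ext
  · simp
  · simp

lemma shB4_apply (v : Vz) : ((shB ^ 4) v).1 = (v.1.1, v.1.2 - 4 * v.1.1) := by
  simp only [pow_succ, pow_zero, one_mul, Equiv.Perm.mul_apply, shB_apply]
  ext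
  · rfl
  · simp only; ring

lemma shB4_inv_apply (v : Vz) : (((shB ^ 4)⁻¹) v).1 = (v.1.1, v.1.2 + 4 * v.1.1) := by
  rw [← inv_pow]
  simp only [pow_succ, pow_zero, one_mul, Equiv.Perm.mul_apply, shB_inv_apply]
  ext
  · rfl
  · simp only; ring

/-- The attracting sets. -/
def Xs : Bool → Set Vz
  | true => {v | v.1.2 = 0 ∨ v.1.2 * v.1.2 < 2 * (v.1.1 * v.1.2)}
  | false => {v | v.1.1 = 0 ∨ v.1.1 * v.1.2 < -2 * (v.1.1 * v.1.1)}

/-- The repelling sets. -/
def Ys : Bool → Set Vz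
  | true => {v | v.1.2 ≠ 0 ∧ 2 * (v.1.1 * v.1.2) ≤ - (v.1.2 * v.1.2)}
  | false => {v | v.1.1 ≠ 0 ∧ 2 * (v.1.1 * v.1.1) ≤ v.1.1 * v.1.2}

/-- The pair `(A, B ^ 4)`. -/
def pairAB : Bool → Equiv.Perm Vz := fun i => cond i shA (shB ^ 4)

lemma sq_pos' {q : ℤ} (h : q ≠ 0) : 0 < q * q := by
  exact mul_self_pos.2 h

theorem free_AB : Function.Injective (FreeGroup.lift pairAB) := by
  have hne : ∀ v : Vz, v.1.1 = 0 → v.1.2 = 0 → False := by
    intro v h1 h2
    exact v.2 (Prod.ext h1 h2)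
  refine FreeGroup.injective_lift_of_ping_pong pairAB (α := Vz) Xs Ys ?_ ?_ ?_ ?_ ?_ ?_
  · rintro (_ | _)
    · exact ⟨⟨(0, 1), by simp⟩, Or.inl rfl⟩
    · exact ⟨⟨(1, 0), by simp⟩, Or.inl rfl⟩
  · have key : Disjoint (Xs true) (Xs false) := by
      rw [Set.disjoint_left]
      rintro v (h1 | h1) (h2 | h2)
      · exact hne v h2 h1
      · rw [h1] at h2
        nlinarith [mul_self_nonneg v.1.1]
      · rw [h2] at h1
        nlinarith [mul_self_nonneg v.1.2]
      · nlinarith [mul_self_nonneg v.1.1, mul_self_nonneg v.1.2]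
    rintro (_ | _) (_ | _) h
    · exact absurd rfl h
    · exact key.symm
    · exact key
    · exact absurd rfl h
  · have key : Disjoint (Ys true) (Ys false) := by
      rw [Set.disjoint_left]
      rintro v ⟨h0, h1⟩ ⟨h2, h3⟩
      have := sq_pos' h0
      have := sq_pos' h2
      nlinarith
    rintro (_ | _) (_ | _) h
    · exact absurd rfl h
    · exact key.symm
    · exact key
    · exact absurd rfl h
  · rintro (_ | _) (_ | _)
    · rw [Set.disjoint_left]
      rintro v (h1 | h1) ⟨h2, h3⟩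
      · exact h2 h1
      · nlinarith [sq_pos' h2]
    · rw [Set.disjoint_left]
      rintro v (h1 | h1) ⟨h2, h3⟩
      · rw [h1] at h3
        nlinarith [sq_pos' h2]
      · -- q (q + 2p) ≤ 0, p (q + 2 p) < 0
        have e1 : v.1.2 * v.1.2 + 2 * (v.1.1 * v.1.2) =
          (v.1.2 + 2 * v.1.1) * (v.1.2 + 2 * v.1.1) -
            2 * (v.1.1 * v.1.2 + 2 * (v.1.1 * v.1.1)) := by ring
        nlinarith [mul_self_nonneg (v.1.2 + 2 * v.1.1)]
    · rw [Set.disjoint_left]
      rintro v (h1 | h1) ⟨h2, h3⟩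
      · rw [h1] at h3
        nlinarith [sq_pos' h2]
      · have e1 : v.1.2 * v.1.2 - 2 * (v.1.1 * v.1.2) =
          (v.1.2 - 2 * v.1.1) * (v.1.2 - 2 * v.1.1) +
            2 * (v.1.1 * v.1.2 - 2 * (v.1.1 * v.1.1)) := by ring
        nlinarith [mul_self_nonneg (v.1.2 - 2 * v.1.1)]
    · rw [Set.disjoint_left]
      rintro v (h1 | h1) ⟨h2, h3⟩
      · exact h2 h1
      · nlinarith [sq_pos' h2]
  · rintro (_ | _)
    · rintro _ ⟨v, hv, rfl⟩
      change ((shB ^ 4) v).1.1 = 0 ∨ _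
      simp only [Ys, Set.mem_compl_iff, Set.mem_ofPred_eq, not_and, not_le] at hv
      by_cases h : v.1.1 = 0
      · left
        rw [shB4_apply]
        exact h
      · right
        change ((shB ^ 4) v).1.1 * ((shB ^ 4) v).1.2 < -2 * (((shB ^ 4) v).1.1 * ((shB ^ 4) v).1.1)
        rw [shB4_apply]
        have := hv h
        simp only
        nlinarith
    · rintro _ ⟨v, hv, rfl⟩
      change (shA v).1.2 = 0 ∨ _
      simp only [Ys, Set.mem_compl_iff, Set.mem_ofPred_eq, not_and, not_le] at hv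
      by_cases h : v.1.2 = 0
      · left
        rw [shA_apply]
        exact h
      · right
        change (shA v).1.2 * (shA v).1.2 < 2 * ((shA v).1.1 * (shA v).1.2)
        rw [shA_apply]
        have := hv h
        simp only
        nlinarith [sq_pos' h]
  · rintro (_ | _)
    · rintro _ ⟨v, hv, rfl⟩
      simp only [Xs, Set.mem_compl_iff, Set.mem_ofPred_eq, not_or, not_lt] at hv
      change (((shB ^ 4)⁻¹) v).1.1 ≠ 0 ∧ 2 * ((((shB ^ 4)⁻¹) v).1.1 * (((shB ^ 4)⁻¹) v).1.1) ≤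
        (((shB ^ 4)⁻¹) v).1.1 * (((shB ^ 4)⁻¹) v).1.2
      rw [shB4_inv_apply]
      refine ⟨hv.1, ?_⟩
      simp only
      nlinarith [hv.2]
    · rintro _ ⟨v, hv, rfl⟩
      simp only [Xs, Set.mem_compl_iff, Set.mem_ofPred_eq, not_or, not_lt] at hv
      change (shA⁻¹ v).1.2 ≠ 0 ∧ 2 * ((shA⁻¹ v).1.1 * (shA⁻¹ v).1.2) ≤
        - ((shA⁻¹ v).1.2 * (shA⁻¹ v).1.2)
      rw [shA_inv_apply]
      refine ⟨hv.1, ?_⟩
      simp only
      nlinarith [hv.2]

end Pool.Agent.helper11.Boone
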