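import Mathlib
import Pool.Agent.helper11.Boone.Main
import Pool.Agent.helper11.Boone.Amalg
import Pool.Agent.helper11.Boone.PingPong

/-!
A finitely presented group in which it is undecidable whether an element is a normal generator.

Given `Γ = ⟨x_i | R⟩`, take the generators `x_i, b₀, b₁, s, z_j` and the relations `R`,
`s z_j s = z_j s z_j`, `z_j ^ 4 = y_j`, where the `y_j` run through `b₁`, `b₀ b₁`, `x_i b₁`.
Adding the relator `s⁻¹ [w, b₀]` kills the group if and only if `w = 1` in `Γ`.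
-/

namespace Pool.Agent.helper11.Boone

/-! ### The model -/

section model

/-- If `w ≠ 1` in `Γ` then `Γ` acts on a set such that for some permutation `b₀` the commutator
`w⁻¹ b₀⁻¹ w b₀` has infinite order. -/
lemma exists_b0 (Γ : Type) [Group Γ] (w : Γ) (hw : w ≠ 1) :
    ∃ (G₀ : Type) (_ : Group G₀) (f : Γ →* G₀) (b₀ : G₀),
      Cardinal.mk G₀ ≤ Cardinal.mk (Γ × ℤ → Γ × ℤ) ∧
      ∀ m : ℤ, ((f w)⁻¹ * b₀⁻¹ * f w * b₀) ^ m = 1 → m = 0 := by
  classical
  let f : Γ →* Equiv.Perm (Γ × ℤ) :=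
    { toFun := fun g => Equiv.prodCongr (Equiv.mulLeft g) (Equiv.refl ℤ)
      map_one' := by
        refine Equiv.ext ?_
        rintro ⟨a, b⟩
        simp
      map_mul' := fun g h => by
        refine Equiv.ext ?_
        rintro ⟨a, b⟩
        simp [mul_assoc] }
  let b₀ : Equiv.Perm (Γ × ℤ) :=
    { toFun := fun x => if x.1 = 1 then (x.1, x.2 + 1) else x
      invFun := fun x => if x.1 = 1 then (x.1, x.2 - 1) else x
      left_inv := fun x => by
        by_cases h : x.1 = 1
        · simp [h, Prod.ext_iff]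
        · simp [h]
      right_inv := fun x => by
        by_cases h : x.1 = 1
        · simp [h, Prod.ext_iff]
        · simp [h] }
  refine ⟨Equiv.Perm (Γ × ℤ), inferInstance, f, b₀, ?_, ?_⟩
  · exact Cardinal.mk_le_of_injective (f := fun σ : Equiv.Perm (Γ × ℤ) => (σ : Γ × ℤ → Γ × ℤ))
      (fun σ τ h => Equiv.ext (congrFun h))
  · set s : Equiv.Perm (Γ × ℤ) := (f w)⁻¹ * b₀⁻¹ * f w * b₀ with hs
    have h1 : ∀ a : ℤ, s (1, a) = (1, a + 1) := by
      intro a
      have e1 : b₀ (1, a) = (1, a + 1) := if_pos rfl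
      have e2 : f w (1, a + 1) = (w, a + 1) := by
        change ((w * 1, a + 1) : Γ × ℤ) = _
        rw [mul_one]
      have e3 : b₀⁻¹ (w, a + 1) = (w, a + 1) := if_neg hw
      have e4 : (f w)⁻¹ (w, a + 1) = (1, a + 1) := by
        rw [Equiv.Perm.inv_eq_iff_eq, e2]
      rw [hs, Equiv.Perm.mul_apply, Equiv.Perm.mul_apply, Equiv.Perm.mul_apply, e1, e2, e3, e4]
    have h2 : ∀ a : ℤ, s⁻¹ (1, a) = (1, a - 1) := by
      intro a
      rw [Equiv.Perm.inv_eq_iff_eq, h1, sub_add_cancel]
    have h3 : ∀ m a : ℤ, (s ^ m) (1, a) = (1, a + m) := by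
      intro m
      induction m using Int.induction_on with
      | zero => intro a; simp
      | succ m ih =>
        intro a
        rw [zpow_add_one, Equiv.Perm.mul_apply, h1, ih]
        congr 1
        ring
      | pred m ih =>
        intro a
        rw [zpow_sub_one, Equiv.Perm.mul_apply, h2, ih]
        congr 1
        ring
    intro m hm
    have h4 := h3 m 0
    rw [hm, Equiv.Perm.one_apply, Prod.ext_iff] at h4
    have := h4.2
    simp only at this
    omega

/-- The model of the enlarged group when `w ≠ 1`. -/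
theorem exists_rabin_model {n : ℕ} (Γ : Type) [Group Γ] (x : Fin n → Γ) (w : Γ) (hw : w ≠ 1) :
    ∃ (P : Type) (_ : Group P) (f : Γ →* P) (b₀ b₁ s z₀ z₁ : P) (z : Fin n → P),
      s = (f w)⁻¹ * b₀⁻¹ * f w * b₀ ∧ s ≠ 1 ∧
      s * z₀ * s = z₀ * s * z₀ ∧ z₀ ^ 4 = b₁ ∧
      s * z₁ * s = z₁ * s * z₁ ∧ z₁ ^ 4 = b₀ * b₁ ∧
      (∀ i, s * z i * s = z i * s * z i) ∧ ∀ i, z i ^ 4 = f (x i) * b₁ := by
  classical
  obtain ⟨G₀, _, f₀, β₀, -, hord⟩ := exists_b0 Γ w hw
  set s₀ : G₀ := (f₀ w)⁻¹ * β₀⁻¹ * f₀ w * β₀ with hs₀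
  -- a free partner of `s₀`
  let F2 := FreeGroup Bool
  let Z₀ : Type := G₀ × F2 × ℕ
  have hZG : Cardinal.mk G₀ ≤ Cardinal.mk Z₀ :=
    Cardinal.mk_le_of_injective (f := fun g : G₀ => ((g, 1, 0) : Z₀)) (fun a b h => congrArg Prod.fst h)
  have hZF : Cardinal.mk F2 ≤ Cardinal.mk Z₀ :=
    Cardinal.mk_le_of_injective (f := fun g : F2 => ((1, g, 0) : Z₀))
      (fun a b h => congrArg (fun q : Z₀ => q.2.1) h)
  obtain ⟨θ₀, hθ₀, hθ₀'⟩ := exists_amalgam (Z := Z₀) hZG hZF
    (zpowersHom G₀ s₀) (zpowersHom F2 (FreeGroup.of true)) (by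
      intro m
      rw [zpowersHom_apply, zpowersHom_apply]
      constructor
      · intro h
        rw [hord _ h, zpow_zero]
      · intro h
        have h1 : (FreeGroup.lift (fun _ : Bool => Multiplicative.ofAdd (1 : ℤ)))
            ((FreeGroup.of true : F2) ^ (Multiplicative.toAdd m)) = 1 := by
          rw [h, map_one]
        rw [map_zpow, FreeGroup.lift_apply_of, ← ofAdd_zsmul, smul_eq_mul, mul_one,
          ← ofAdd_zero] at h1
        have h2 : Multiplicative.toAdd m = 0 := Multiplicative.ofAdd.injective h1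
        rw [h2, zpow_zero])
  have hθs : θ₀ (FreeGroup.of true) = rhoZ Z₀ G₀ s₀ := by
    have := hθ₀' (Multiplicative.ofAdd 1)
    rw [zpowersHom_apply, zpowersHom_apply, toAdd_ofAdd, zpow_one, zpow_one] at this
    exact this
  set c : Equiv.Perm (Uz Z₀ G₀) := θ₀ (FreeGroup.of false) with hc
  -- the product over all the `y`
  let J := Option (Option (Fin n))
  let P₀ := Equiv.Perm (Uz Z₀ G₀)
  let H : Type := J → P₀
  let emb : G₀ →* H := MonoidHom.pi fun _ => rhoZ Z₀ G₀
  let pj : J → G₀ := fun j => match j with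
    | none => 1
    | some none => β₀
    | some (some i) => f₀ (x i)
  let b₁ : H := fun j => (rhoZ Z₀ G₀ (pj j))⁻¹ * c
  -- the pairs `(s, p_j b₁)` are free
  have hfree : ∀ j : J, Function.Injective
      (FreeGroup.lift (fun i : Bool => cond i (emb s₀) (emb (pj j) * b₁))) := by
    intro j
    rw [injective_iff_map_eq_one]
    intro r hr
    have h1 := congrFun hr j
    have h2 : (Pi.evalMonoidHom (fun _ : J => P₀) j).comp
        (FreeGroup.lift (fun i : Bool => cond i (emb s₀) (emb (pj j) * b₁))) = θ₀ := by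
      ext1 i
      cases i with
      | true =>
        rw [MonoidHom.comp_apply, FreeGroup.lift_apply_of]
        exact hθs.symm
      | false =>
        rw [MonoidHom.comp_apply, FreeGroup.lift_apply_of]
        change rhoZ Z₀ G₀ (pj j) * ((rhoZ Z₀ G₀ (pj j))⁻¹ * c) = _
        rw [mul_inv_cancel_left]
    have h3 := DFunLike.congr_fun h2 r
    rw [MonoidHom.comp_apply] at h3
    have h4 : θ₀ r = 1 := by
      rw [← h3]
      exact h1
    exact (injective_iff_map_eq_one θ₀).1 hθ₀ r h4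
  -- glue the braid group
  let K := Equiv.Perm Vz
  let Z : Type := H × K × ℕ
  have hZH : Cardinal.mk H ≤ Cardinal.mk Z :=
    Cardinal.mk_le_of_injective (f := fun g : H => ((g, 1, 0) : Z)) (fun a b h => congrArg Prod.fst h)
  have hZK : Cardinal.mk K ≤ Cardinal.mk Z :=
    Cardinal.mk_le_of_injective (f := fun g : K => ((1, g, 0) : Z))
      (fun a b h => congrArg (fun q : Z => q.2.1) h)
  have hglue : ∀ j : J, ∃ ζ : Equiv.Perm (Uz Z H),
      rhoZ Z H (emb s₀) * ζ * rhoZ Z H (emb s₀) = ζ * rhoZ Z H (emb s₀) * ζ ∧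
      ζ ^ 4 = rhoZ Z H (emb (pj j) * b₁) := by
    intro j
    obtain ⟨θ, -, hθ⟩ := exists_amalgam (Z := Z) hZH hZK
      (FreeGroup.lift (fun i : Bool => cond i (emb s₀) (emb (pj j) * b₁)))
      (FreeGroup.lift pairAB) (by
        intro r
        rw [map_eq_one_iff _ (hfree j), map_eq_one_iff _ free_AB])
    have ht := hθ (FreeGroup.of true)
    have hf := hθ (FreeGroup.of false)
    rw [FreeGroup.lift_apply_of, FreeGroup.lift_apply_of] at ht hf
    change θ shA = rhoZ Z H (emb s₀) at ht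
    change θ (shB ^ 4) = rhoZ Z H (emb (pj j) * b₁) at hf
    refine ⟨θ shB, ?_, ?_⟩
    · rw [← ht, ← map_mul, ← map_mul, ← map_mul, ← map_mul, braid_sh]
    · rw [← map_pow, hf]
  choose ζ hζ1 hζ2 using hglue
  refine ⟨Equiv.Perm (Uz Z H), inferInstance, (rhoZ Z H).comp (emb.comp f₀), rhoZ Z H (emb β₀),
    rhoZ Z H b₁, rhoZ Z H (emb s₀), ζ none, ζ (some none), fun i => ζ (some (some i)),
    ?_, ?_, hζ1 _, ?_, hζ1 _, ?_, fun i => hζ1 _, fun i => ?_⟩
  · let Φ : G₀ →* Equiv.Perm (Uz Z H) := (rhoZ Z H).comp emb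
    change Φ s₀ = (Φ (f₀ w))⁻¹ * (Φ β₀)⁻¹ * Φ (f₀ w) * Φ β₀
    rw [hs₀, map_mul, map_mul, map_mul, map_inv, map_inv]
  · intro h
    have h1 : emb s₀ = 1 := rhoZ_injective (by rw [h, map_one])
    have h2 : rhoZ Z₀ G₀ s₀ = 1 := congrFun h1 none
    have h3 : s₀ = 1 := rhoZ_injective (by rw [h2, map_one])
    have := hord 1 (by rw [zpow_one]; exact h3)
    omega
  · rw [hζ2]
    have : emb (pj none) = 1 := map_one emb
    rw [this, one_mul]
  · rw [hζ2, map_mul]
  · rw [hζ2, map_mul]
    rfl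

end model

/-! ### The presentation -/

section pres

variable (n : ℕ)

/-- Number of generators. -/
abbrev nr : ℕ := 2 * n + 5

/-- `x_i` -/
def rx (i : Fin n) : Fin (nr n) := ⟨i, by have := i.2; unfold nr; omega⟩
/-- `b₀` -/
def rb0 : Fin (nr n) := ⟨n, by unfold nr; omega⟩
/-- `b₁` -/
def rb1 : Fin (nr n) := ⟨n + 1, by unfold nr; omega⟩
/-- `s` -/
def rs : Fin (nr n) := ⟨n + 2, by unfold nr; omega⟩
/-- `z₀` -/
def rz0 : Fin (nr n) := ⟨n + 3, by unfold nr; omega⟩
/-- `z₁` -/
def rz1 : Fin (nr n) := ⟨n + 4, by unfold nr; omega⟩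
/-- `z_i` -/
def rz (i : Fin n) : Fin (nr n) := ⟨n + 5 + i, by have := i.2; unfold nr; omega⟩

lemma gen_cases (g : Fin (nr n)) : (∃ i, g = rx n i) ∨ g = rb0 n ∨ g = rb1 n ∨ g = rs n ∨
    g = rz0 n ∨ g = rz1 n ∨ ∃ i, g = rz n i := by
  have hg := g.2
  by_cases h1 : (g : ℕ) < n
  · exact Or.inl ⟨⟨g, h1⟩, Fin.ext rfl⟩
  by_cases h2 : (g : ℕ) = n
  · exact Or.inr (Or.inl (Fin.ext h2))
  by_cases h3 : (g : ℕ) = n + 1
  · exact Or.inr (Or.inr (Or.inl (Fin.ext h3)))
  by_cases h4 : (g : ℕ) = n + 2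
  · exact Or.inr (Or.inr (Or.inr (Or.inl (Fin.ext h4))))
  by_cases h5 : (g : ℕ) = n + 3
  · exact Or.inr (Or.inr (Or.inr (Or.inr (Or.inl (Fin.ext h5)))))
  by_cases h6 : (g : ℕ) = n + 4
  · exact Or.inr (Or.inr (Or.inr (Or.inr (Or.inr (Or.inl (Fin.ext h6))))))
  · refine Or.inr (Or.inr (Or.inr (Or.inr (Or.inr (Or.inr
      ⟨⟨g - (n + 5), by unfold nr at hg; omega⟩, Fin.ext ?_⟩)))))
    simp only [rz]
    omega

variable {n} {P : Type} (x : Fin n → P) (b₀ b₁ s z₀ z₁ : P) (z : Fin n → P)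

/-- Assign values to the generators. -/
def rval (g : Fin (nr n)) : P :=
  if h : (g : ℕ) < n then x ⟨g, h⟩
  else if h0 : (g : ℕ) = n then b₀
  else if h1 : (g : ℕ) = n + 1 then b₁
  else if h2 : (g : ℕ) = n + 2 then s
  else if h3 : (g : ℕ) = n + 3 then z₀
  else if h4 : (g : ℕ) = n + 4 then z₁
  else z ⟨g - (n + 5), by have := g.2; unfold nr at this; omega⟩

lemma rval_rx (i : Fin n) : rval x b₀ b₁ s z₀ z₁ z (rx n i) = x i := by
  rw [rval, dif_pos (show ((rx n i : Fin (nr n)) : ℕ) < n from i.2)]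
  rfl

lemma rval_rb0 : rval x b₀ b₁ s z₀ z₁ z (rb0 n) = b₀ := by
  have e : ((rb0 n : Fin (nr n)) : ℕ) = n := rfl
  rw [rval, dif_neg (by rw [e]; omega), dif_pos e]

lemma rval_rb1 : rval x b₀ b₁ s z₀ z₁ z (rb1 n) = b₁ := by
  have e : ((rb1 n : Fin (nr n)) : ℕ) = n + 1 := rfl
  rw [rval, dif_neg (by rw [e]; omega), dif_neg (by rw [e]; omega), dif_pos e]

lemma rval_rs : rval x b₀ b₁ s z₀ z₁ z (rs n) = s := by
  have e : ((rs n : Fin (nr n)) : ℕ) = n + 2 := rfl
  rw [rval, dif_neg (by rw [e]; omega), dif_neg (by rw [e]; omega), dif_neg (by rw [e]; omega),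
    dif_pos e]

lemma rval_rz0 : rval x b₀ b₁ s z₀ z₁ z (rz0 n) = z₀ := by
  have e : ((rz0 n : Fin (nr n)) : ℕ) = n + 3 := rfl
  rw [rval, dif_neg (by rw [e]; omega), dif_neg (by rw [e]; omega), dif_neg (by rw [e]; omega),
    dif_neg (by rw [e]; omega), dif_pos e]

lemma rval_rz1 : rval x b₀ b₁ s z₀ z₁ z (rz1 n) = z₁ := by
  have e : ((rz1 n : Fin (nr n)) : ℕ) = n + 4 := rfl
  rw [rval, dif_neg (by rw [e]; omega), dif_neg (by rw [e]; omega), dif_neg (by rw [e]; omega),
    dif_neg (by rw [e]; omega), dif_neg (by rw [e]; omega), dif_pos e]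

lemma rval_rz (i : Fin n) : rval x b₀ b₁ s z₀ z₁ z (rz n i) = z i := by
  have e : ((rz n i : Fin (nr n)) : ℕ) = n + 5 + i := rfl
  rw [rval, dif_neg (by rw [e]; omega), dif_neg (by rw [e]; omega), dif_neg (by rw [e]; omega),
    dif_neg (by rw [e]; omega), dif_neg (by rw [e]; omega), dif_neg (by rw [e]; omega)]
  congr 1
  apply Fin.ext
  change (rz n i : ℕ) - (n + 5) = i
  rw [e]
  omega

/-- The embedding of the old words. -/
def emb (n : ℕ) : FreeGroup (Fin n) →* FreeGroup (Fin (nr n)) := FreeGroup.map (rx n)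

open FreeGroup in
/-- The relators of the enlarged group. -/
def RRels (R : Set (FreeGroup (Fin n))) : Set (FreeGroup (Fin (nr n))) :=
  (emb n '' R) ∪
  {of (rs n) * of (rz0 n) * of (rs n) * (of (rz0 n) * of (rs n) * of (rz0 n))⁻¹,
   of (rz0 n) ^ 4 * (of (rb1 n))⁻¹,
   of (rs n) * of (rz1 n) * of (rs n) * (of (rz1 n) * of (rs n) * of (rz1 n))⁻¹,
   of (rz1 n) ^ 4 * (of (rb0 n) * of (rb1 n))⁻¹} ∪
  (Set.range fun i => of (rs n) * of (rz n i) * of (rs n) *
    (of (rz n i) * of (rs n) * of (rz n i))⁻¹) ∪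
  (Set.range fun i => of (rz n i) ^ 4 * (of (rx n i) * of (rb1 n))⁻¹)

lemma RRels_finite {R : Set (FreeGroup (Fin n))} (hR : R.Finite) : (RRels R).Finite := by
  unfold RRels
  refine Set.Finite.union (Set.Finite.union (Set.Finite.union (hR.image _) ?_)
    (Set.finite_range _)) (Set.finite_range _)
  exact Set.toFinite _

/-- The killing word `s⁻¹ [w, b₀]`. -/
def KW (w : FreeGroup (Fin n)) : FreeGroup (Fin (nr n)) :=
  (FreeGroup.of (rs n))⁻¹ *
    ((emb n w)⁻¹ * (FreeGroup.of (rb0 n))⁻¹ * emb n w * FreeGroup.of (rb0 n))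

theorem kill_iff (R : Set (FreeGroup (Fin n))) (w : FreeGroup (Fin n)) :
    Subgroup.normalClosure (insert (KW w) (RRels R)) = ⊤ ↔ w ∈ Subgroup.normalClosure R := by
  constructor
  · intro htop
    by_contra hw
    let Γ := FreeGroup (Fin n) ⧸ Subgroup.normalClosure R
    let π : FreeGroup (Fin n) →* Γ := QuotientGroup.mk' (Subgroup.normalClosure R)
    have hπ : π w ≠ 1 := fun h => hw ((QuotientGroup.eq_one_iff w).1 h)
    obtain ⟨P, _, f, b₀, b₁, s, z₀, z₁, z, hs, hs1, h1, h2, h3, h4, h5, h6⟩ :=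
      exists_rabin_model Γ (fun i => π (FreeGroup.of i)) (π w) hπ
    let F : FreeGroup (Fin (nr n)) →* P :=
      FreeGroup.lift (rval (fun i => f (π (FreeGroup.of i))) b₀ b₁ s z₀ z₁ z)
    have hFemb : ∀ u, F (emb n u) = f (π u) := by
      intro u
      have : F.comp (emb n) = f.comp π := by
        ext1 i
        rw [MonoidHom.comp_apply, MonoidHom.comp_apply, emb, FreeGroup.map.of]
        change FreeGroup.lift _ (FreeGroup.of (rx n i)) = _
        rw [FreeGroup.lift_apply_of, rval_rx]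
      exact DFunLike.congr_fun this u
    have hF0 : F (FreeGroup.of (rb0 n)) = b₀ := by
      simp only [F]; rw [FreeGroup.lift_apply_of, rval_rb0]
    have hF1 : F (FreeGroup.of (rb1 n)) = b₁ := by
      simp only [F]; rw [FreeGroup.lift_apply_of, rval_rb1]
    have hFs : F (FreeGroup.of (rs n)) = s := by
      simp only [F]; rw [FreeGroup.lift_apply_of, rval_rs]
    have hFz0 : F (FreeGroup.of (rz0 n)) = z₀ := by
      simp only [F]; rw [FreeGroup.lift_apply_of, rval_rz0]
    have hFz1 : F (FreeGroup.of (rz1 n)) = z₁ := by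
      simp only [F]; rw [FreeGroup.lift_apply_of, rval_rz1]
    have hFz : ∀ i, F (FreeGroup.of (rz n i)) = z i := by
      intro i
      simp only [F]; rw [FreeGroup.lift_apply_of, rval_rz]
    have hFx : ∀ i, F (FreeGroup.of (rx n i)) = f (π (FreeGroup.of i)) := by
      intro i
      simp only [F]; rw [FreeGroup.lift_apply_of, rval_rx]
    have hle : Subgroup.normalClosure (insert (KW w) (RRels R)) ≤ F.ker := by
      apply Subgroup.normalClosure_le_normal
      intro r hr
      change F r = 1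
      rcases hr with rfl | hr
      · rw [KW]
        simp only [map_mul, map_inv, hFemb, hF0, hFs]
        rw [hs, inv_mul_cancel]
      · unfold RRels at hr
        rcases hr with ((⟨u, hu, rfl⟩ | hr) | ⟨i, rfl⟩) | ⟨i, rfl⟩
        · rw [hFemb]
          have : π u = 1 := (QuotientGroup.eq_one_iff u).2 (Subgroup.subset_normalClosure hu)
          rw [this, map_one]
        · rcases hr with rfl | rfl | rfl | rfl
          · simp only [map_mul, map_inv, hFs, hFz0]
            rw [h1]; group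
          · simp only [map_mul, map_inv, map_pow, hFz0, hF1]
            rw [h2, mul_inv_cancel]
          · simp only [map_mul, map_inv, hFs, hFz1]
            rw [h3]; group
          · simp only [map_mul, map_inv, map_pow, hFz1, hF0, hF1]
            rw [h4, mul_inv_cancel]
        · simp only [map_mul, map_inv, hFs, hFz]
          rw [h5]; group
        · simp only [map_mul, map_inv, map_pow, hFz, hFx, hF1]
          rw [h6, mul_inv_cancel]
    rw [htop] at hle
    have := hle (Subgroup.mem_top (FreeGroup.of (rs n)))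
    rw [MonoidHom.mem_ker, hFs] at this
    exact hs1 this
  · intro hw
    set N := Subgroup.normalClosure (insert (KW w) (RRels R)) with hN
    let π := QuotientGroup.mk' N
    have hπ : ∀ u, π u = 1 ↔ u ∈ N := fun u => QuotientGroup.eq_one_iff u
    have hrel : ∀ r ∈ insert (KW w) (RRels R), π r = 1 :=
      fun r hr => (hπ r).2 (Subgroup.subset_normalClosure hr)
    have hR : ∀ u ∈ R, π (emb n u) = 1 := fun u hu =>
      hrel _ (Or.inr (Or.inl (Or.inl (Or.inl ⟨u, hu, rfl⟩))))
    have hwN : π (emb n w) = 1 := by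
      have hle : Subgroup.normalClosure R ≤ (π.comp (emb n)).ker :=
        Subgroup.normalClosure_le_normal fun u hu => hR u hu
      exact hle hw
    have hs : π (FreeGroup.of (rs n)) = 1 := by
      have hKW : KW w = (FreeGroup.of (rs n))⁻¹ *
        ((emb n w)⁻¹ * (FreeGroup.of (rb0 n))⁻¹ * emb n w * FreeGroup.of (rb0 n)) := rfl
      have h : π (KW w) = 1 := hrel _ (Or.inl rfl)
      have h2 : π (KW w) = (π (FreeGroup.of (rs n)))⁻¹ *
          ((π (emb n w))⁻¹ * (π (FreeGroup.of (rb0 n)))⁻¹ * π (emb n w) *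
            π (FreeGroup.of (rb0 n))) := by
        simp only [hKW, map_mul, map_inv]
      rw [h, hwN] at h2
      simpa using h2.symm
    have hkill : ∀ g y : FreeGroup (Fin (nr n)) ⧸ N,
        π (FreeGroup.of (rs n)) * g * π (FreeGroup.of (rs n)) *
          (g * π (FreeGroup.of (rs n)) * g)⁻¹ = 1 → g ^ 4 * y⁻¹ = 1 → g = 1 ∧ y = 1 := by
      intro g y h1 h2
      rw [hs] at h1
      simp only [one_mul, mul_one] at h1
      have hg : g = 1 := left_eq_mul.1 (mul_inv_eq_one.1 h1)
      refine ⟨hg, ?_⟩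
      rw [hg] at h2
      simpa using h2
    have hz0 := hkill (π (FreeGroup.of (rz0 n))) (π (FreeGroup.of (rb1 n)))
      (by simpa only [map_mul, map_inv] using hrel _ (Or.inr (Or.inl (Or.inl (Or.inr (Or.inl rfl))))))
      (by simpa only [map_mul, map_inv, map_pow] using
        hrel _ (Or.inr (Or.inl (Or.inl (Or.inr (Or.inr (Or.inl rfl)))))))
    have hz1 := hkill (π (FreeGroup.of (rz1 n))) (π (FreeGroup.of (rb0 n)) * π (FreeGroup.of (rb1 n)))
      (by simpa only [map_mul, map_inv] using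
        hrel _ (Or.inr (Or.inl (Or.inl (Or.inr (Or.inr (Or.inr (Or.inl rfl))))))))
      (by simpa only [map_mul, map_inv, map_pow] using
        hrel _ (Or.inr (Or.inl (Or.inl (Or.inr (Or.inr (Or.inr (Or.inr rfl))))))))
    have hz : ∀ i, _ := fun i => hkill (π (FreeGroup.of (rz n i)))
      (π (FreeGroup.of (rx n i)) * π (FreeGroup.of (rb1 n)))
      (by simpa only [map_mul, map_inv] using hrel _ (Or.inr (Or.inl (Or.inr ⟨i, rfl⟩))))
      (by simpa only [map_mul, map_inv, map_pow] using hrel _ (Or.inr (Or.inr ⟨i, rfl⟩)))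
    have hb1 := hz0.2
    have hb0 : π (FreeGroup.of (rb0 n)) = 1 := by
      have := hz1.2
      rwa [hb1, mul_one] at this
    have hx : ∀ i, π (FreeGroup.of (rx n i)) = 1 := by
      intro i
      have := (hz i).2
      rwa [hb1, mul_one] at this
    have hall : ∀ g : Fin (nr n), FreeGroup.of g ∈ N := by
      intro g
      rw [← hπ]
      rcases gen_cases n g with ⟨i, rfl⟩ | rfl | rfl | rfl | rfl | rfl | ⟨i, rfl⟩
      · exact hx i
      · exact hb0
      · exact hb1
      · exact hs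
      · exact hz0.1
      · exact hz1.1
      · exact (hz i).1
    rw [eq_top_iff, ← FreeGroup.closure_range_of, Subgroup.closure_le]
    rintro _ ⟨g, rfl⟩
    exact hall g

/-- The killing word as a list. -/
def KWl (n : ℕ) (w : List (Fin n × Bool)) : List (Fin (nr n) × Bool) :=
  [(rs n, false)] ++ (FreeGroup.invRev (w.map fun g => (rx n g.1, g.2)) ++ [(rb0 n, false)] ++
    (w.map fun g => (rx n g.1, g.2)) ++ [(rb0 n, true)])

lemma mk_KWl (n : ℕ) (w : List (Fin n × Bool)) :
    FreeGroup.mk (KWl n w) = KW (FreeGroup.mk w) := by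
  rw [KWl, KW, emb]
  simp only [← FreeGroup.mul_mk, ← FreeGroup.inv_mk, FreeGroup.map.mk]
  rfl

lemma primrec_KWl (n : ℕ) : Primrec (KWl n) := by
  unfold KWl
  have h1 : Primrec (fun w : List (Fin n × Bool) => w.map fun g => (rx n g.1, g.2)) := by
    refine Primrec.list_map Primrec.id ?_
    have h2 : Primrec (rx n) := Primrec.dom_finite _
    exact (Primrec.pair (h2.comp (Primrec.fst.comp Primrec.snd))
      (Primrec.snd.comp Primrec.snd)).to₂
  have h3 : Primrec (fun w : List (Fin n × Bool) =>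
      FreeGroup.invRev (w.map fun g => (rx n g.1, g.2))) := (primrec_invRev (nr n)).comp h1
  exact Primrec.list_append.comp (Primrec.const _) (Primrec.list_append.comp
    (Primrec.list_append.comp (Primrec.list_append.comp h3 (Primrec.const _)) h1)
    (Primrec.const _))

end pres

/-- A finitely presented group for which it is undecidable whether an element is a normal generator
(equivalently, whether adding one given relator kills the group). -/
theorem exists_killer : ∃ (n : ℕ) (rels : List (FreeGroup (Fin n))),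
    ¬ ComputablePred (fun w : List (Fin n × Bool) =>
      Subgroup.normalClosure (insert (FreeGroup.mk w) {r | r ∈ rels}) = ⊤) := by
  classical
  obtain ⟨n, R, hR⟩ := exists_group
  have hfin : ({r | r ∈ R} : Set (FreeGroup (Fin n))).Finite := List.finite_toSet R
  refine ⟨nr n, (RRels_finite hfin).toFinset.toList, fun h => hR ?_⟩
  have hset : {r | r ∈ (RRels_finite hfin).toFinset.toList} = RRels {r | r ∈ R} := by
    ext r
    simp only [Finset.mem_toList, Set.Finite.mem_toFinset, Set.mem_ofPred_eq]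
  rw [hset] at h
  refine ComputablePred.computable_of_manyOneReducible
    (q := fun w : List (Fin (nr n) × Bool) =>
      Subgroup.normalClosure (insert (FreeGroup.mk w) (RRels {r | r ∈ R})) = ⊤)
    ⟨KWl n, (primrec_KWl n).to_comp, fun w => ?_⟩ h
  simp only
  rw [mk_KWl, kill_iff]

end Pool.Agent.helper11.Boone
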